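import Mathlib

/-!
Abstract homogeneous spaces with a geodesic averaging property (the output of the mass transport
principle on transitive graphs) and chains of points avoiding dense places of a finite set.
-/

namespace Pool.Agent.Perc

open Finset

/-- A homogeneous discrete metric space with the geodesic averaging property. -/
structure Space (V : Type*) where
  /-- the distance -/
  δ : V → V → ℕ
  /-- balls -/
  ball : V → ℕ → Finset V
  /-- volumes of balls -/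
  v : ℕ → ℕ
  δ_self : ∀ x, δ x x = 0
  δ_symm : ∀ x y, δ x y = δ y x
  δ_tri : ∀ x y z, δ x z ≤ δ x y + δ y z
  mem_ball : ∀ x r y, y ∈ ball x r ↔ δ x y ≤ r
  card_ball : ∀ x r, (ball x r).card = v r
  path : ∀ x y, ∃ γ : ℕ → V, γ 0 = x ∧ (∀ k, δ x y ≤ k → γ k = y) ∧
    ∀ k, δ (γ k) (γ (k + 1)) ≤ 1
  /-- geodesic averaging: if the pairs in `P` are at distance at most `r` and
  `|K| v(r) v(ρ) |Z| < |P| t`, then some pair of `P` is joined by a path `γ`, stopped at its end,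
  with `∑_{k ∈ K} |Z ∩ Ball(γ k, ρ)| < t`. -/
  geo : ∀ (P : Finset (V × V)) (r : ℕ), (∀ a ∈ P, δ a.1 a.2 ≤ r) →
    ∀ (K : Finset ℕ) (Z : Finset V) (ρ : ℕ) (t : ℝ),
      (K.card : ℝ) * v r * v ρ * Z.card < P.card * t →
      ∃ a ∈ P, ∃ γ : ℕ → V, γ 0 = a.1 ∧ (∀ k, δ a.1 a.2 ≤ k → γ k = a.2) ∧
        (∀ k, δ (γ k) (γ (k + 1)) ≤ 1) ∧
        ∑ k ∈ K, ((Z.filter (fun z => δ (γ k) z ≤ ρ)).card : ℝ) < t

namespace Space

variable {V : Type*} (S : Space V)

/-- number of points of `Z` in the ball of radius `ρ` around `x` -/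
def cnt (Z : Finset V) (x : V) (ρ : ℕ) : ℕ := (Z.filter (fun z => S.δ x z ≤ ρ)).card

lemma cnt_le_card (Z : Finset V) (x : V) (ρ : ℕ) : S.cnt Z x ρ ≤ Z.card := card_filter_le _ _

lemma cnt_mono_rad (Z : Finset V) {x y : V} {ρ ρ' : ℕ} (h : S.δ x y + ρ ≤ ρ') :
    S.cnt Z y ρ ≤ S.cnt Z x ρ' := by
  apply card_le_card
  intro z hz
  rw [mem_filter] at hz ⊢
  refine ⟨hz.1, ?_⟩
  have := S.δ_tri x y z
  omega

lemma cnt_mono_set {Z Z' : Finset V} (h : Z ⊆ Z') (x : V) (ρ : ℕ) :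
    S.cnt Z x ρ ≤ S.cnt Z' x ρ := card_le_card (filter_subset_filter _ h)

/-- If `Z'` arises from `Z` by adding at most `b` points then counts increase by at most `b`. -/
lemma cnt_add {Z Z' : Finset V} (h : Z ⊆ Z') {b : ℝ} (hb : (Z'.card : ℝ) ≤ Z.card + b) (x : V)
    (ρ : ℕ) : (S.cnt Z' x ρ : ℝ) ≤ S.cnt Z x ρ + b := by
  classical
  have h1 : S.cnt Z' x ρ ≤ S.cnt Z x ρ + (Z' \ Z).card := by
    unfold cnt
    rw [← card_union_of_disjoint (s := Z.filter (fun z => S.δ x z ≤ ρ)) (t := Z' \ Z)]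
    · apply card_le_card
      intro z hz
      rw [mem_filter] at hz
      by_cases h' : z ∈ Z
      · exact mem_union_left _ (mem_filter.2 ⟨h', hz.2⟩)
      · exact mem_union_right _ (mem_sdiff.2 ⟨hz.1, h'⟩)
    · rw [Finset.disjoint_left]
      intro z hz hz'
      exact (mem_sdiff.1 hz').2 (mem_filter.1 hz).1
  have h2 : (Z' \ Z).card + Z.card = Z'.card := card_sdiff_add_card_eq_card h
  have h3 : ((Z' \ Z).card : ℝ) + Z.card = Z'.card := by exact_mod_cast h2
  have h4 : (S.cnt Z' x ρ : ℝ) ≤ S.cnt Z x ρ + (Z' \ Z).card := by exact_mod_cast h1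
  linarith

lemma δ_path (γ : ℕ → V) (h : ∀ k, S.δ (γ k) (γ (k + 1)) ≤ 1) (k l : ℕ) :
    S.δ (γ k) (γ (k + l)) ≤ l := by
  induction l with
  | zero => rw [add_zero, S.δ_self]
  | succ l ih =>
    have := S.δ_tri (γ k) (γ (k + l)) (γ (k + l + 1))
    have := h (k + l)
    rw [← add_assoc]
    omega

/-- Number of points of a set whose count is large. -/
lemma card_heavy (Z F : Finset V) (ρ : ℕ) (t : ℝ) (hF : ∀ x ∈ F, t ≤ S.cnt Z x ρ) :
    (F.card : ℝ) * t ≤ Z.card * S.v ρ := by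
  classical
  have h1 : (∑ x ∈ F, S.cnt Z x ρ) = ∑ z ∈ Z, (F.filter (fun x => S.δ x z ≤ ρ)).card := by
    unfold cnt
    simp_rw [card_filter]
    rw [sum_comm]
  have h2 : ∀ z ∈ Z, (F.filter (fun x => S.δ x z ≤ ρ)).card ≤ S.v ρ := by
    intro z _
    rw [← S.card_ball z ρ]
    apply card_le_card
    intro x hx
    rw [S.mem_ball, S.δ_symm]
    exact (mem_filter.1 hx).2
  have h3 : (∑ x ∈ F, S.cnt Z x ρ) ≤ Z.card * S.v ρ := by
    rw [h1]
    exact (sum_le_sum h2).trans (by rw [sum_const, smul_eq_mul])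
  have h4 : (F.card : ℝ) * t ≤ ∑ x ∈ F, (S.cnt Z x ρ : ℝ) := by
    rw [← nsmul_eq_mul, ← sum_const]
    exact sum_le_sum hF
  refine h4.trans ?_
  have : ((∑ x ∈ F, S.cnt Z x ρ : ℕ) : ℝ) ≤ ((Z.card * S.v ρ : ℕ) : ℝ) := by exact_mod_cast h3
  push_cast at this
  exact this

/-- `Chain h ρ t Z m a b`: one can go from `a` to `b` in `m` steps of length at most `h`, all
points visited having fewer than `t` points of `Z` within distance `ρ`. -/
inductive Chain (h ρ : ℕ) (t : ℝ) (Z : Finset V) : ℕ → V → V → Prop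
  | refl (a : V) (ha : (S.cnt Z a ρ : ℝ) < t) : Chain h ρ t Z 0 a a
  | snoc (m : ℕ) (a b c : V) (hab : Chain h ρ t Z m a b) (hbc : S.δ b c ≤ h)
      (hc : (S.cnt Z c ρ : ℝ) < t) : Chain h ρ t Z (m + 1) a c

variable {S}

lemma Chain.trans {h ρ : ℕ} {t : ℝ} {Z : Finset V} {m m' : ℕ} {a b c : V}
    (h1 : S.Chain h ρ t Z m a b) (h2 : S.Chain h ρ t Z m' b c) :
    S.Chain h ρ t Z (m + m') a c := by
  induction h2 with
  | refl _ _ => simpa using h1
  | snoc m' b c d _ hcd hd ih => exact Chain.snoc _ _ _ _ (ih h1) hcd hd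

lemma Chain.cnt_right {h ρ : ℕ} {t : ℝ} {Z : Finset V} {m : ℕ} {a b : V}
    (h1 : S.Chain h ρ t Z m a b) : (S.cnt Z b ρ : ℝ) < t := by
  cases h1 with
  | refl _ h => exact h
  | snoc _ _ _ _ _ _ h => exact h

/-- Chains can be made longer by staying at the end point. -/
lemma Chain.extend {h ρ : ℕ} {t : ℝ} {Z : Finset V} {m : ℕ} {a b : V}
    (h1 : S.Chain h ρ t Z m a b) (k : ℕ) : S.Chain h ρ t Z (m + k) a b := by
  induction k with
  | zero => exact h1
  | succ k ih => exact Chain.snoc _ _ _ _ ih (by rw [S.δ_self]; omega) ih.cnt_right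

lemma Chain.extend' {h ρ : ℕ} {t : ℝ} {Z : Finset V} {m m' : ℕ} {a b : V}
    (h1 : S.Chain h ρ t Z m a b) (hm : m ≤ m') : S.Chain h ρ t Z m' a b := by
  obtain ⟨k, rfl⟩ := Nat.exists_eq_add_of_le hm
  exact h1.extend k

/-- A path all of whose sample points are light gives a chain. -/
lemma chain_of_path {h ρ : ℕ} {t : ℝ} {Z : Finset V} (γ : ℕ → V)
    (hγ : ∀ k, S.δ (γ k) (γ (k + 1)) ≤ 1) (m : ℕ)
    (hc : ∀ k ≤ m, (S.cnt Z (γ (k * h)) ρ : ℝ) < t) :
    S.Chain h ρ t Z m (γ 0) (γ (m * h)) := by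
  induction m with
  | zero =>
    rw [zero_mul]
    refine Chain.refl _ ?_
    have := hc 0 le_rfl
    rwa [zero_mul] at this
  | succ m ih =>
    refine Chain.snoc _ _ _ _ (ih fun k hk => hc k (by omega)) ?_ (hc _ le_rfl)
    rw [add_mul, one_mul]
    exact S.δ_path γ hγ _ _

/-- **Chains between large sets.** If all of `N` and `F` lie within distance `r₀` of `y` and
`(m + 1) v(2 r₀) v(ρ) |Z ∩ Ball(y, 3 r₀ + ρ)| < |N| |F| t`, where `2 r₀ ≤ m h`, then some point of
`N` is joined to some point of `F` by a chain of length `m`. -/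
lemma exists_chain (y : V) (r₀ h ρ m : ℕ) (hh : 0 < h) (hm : 2 * r₀ ≤ m * h) (t : ℝ) (Z N F : Finset V)
    (hN : ∀ x ∈ N, S.δ y x ≤ r₀) (hF : ∀ x ∈ F, S.δ y x ≤ r₀)
    (hlt : ((m : ℝ) + 1) * S.v (2 * r₀) * S.v ρ * S.cnt Z y (3 * r₀ + ρ) < N.card * F.card * t) :
    ∃ a ∈ N, ∃ b ∈ F, S.Chain h ρ t Z m a b := by
  classical
  obtain ⟨c, hc, γ, h0, h1, h2, h3⟩ := S.geo (N ×ˢ F) (2 * r₀) (by
      rintro ⟨a, b⟩ hab
      rw [mem_product] at hab
      have h1 := hN a hab.1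
      have h2 := hF b hab.2
      have h3 := S.δ_tri a y b
      rw [S.δ_symm a y] at h3
      simp only
      omega) ((range (m + 1)).image (fun k => k * h))
      (Z.filter (fun z => S.δ y z ≤ 3 * r₀ + ρ)) ρ t (by
      rw [card_product, card_image_of_injective _ (fun a b hab => Nat.eq_of_mul_eq_mul_right hh hab),
        card_range]
      push_cast
      exact hlt)
  rw [mem_product] at hc
  refine ⟨c.1, hc.1, c.2, hc.2, ?_⟩
  have hcN := hN c.1 hc.1
  have hcF := hF c.2 hc.2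
  have hd : S.δ c.1 c.2 ≤ 2 * r₀ := by
    have h3 := S.δ_tri c.1 y c.2
    rw [S.δ_symm c.1 y] at h3
    omega
  have hlight : ∀ k ≤ m, (S.cnt Z (γ (k * h)) ρ : ℝ) < t := by
    intro k hk
    have hle : ((filter (fun z => S.δ (γ (k * h)) z ≤ ρ)
        (filter (fun z => S.δ y z ≤ 3 * r₀ + ρ) Z)).card : ℝ) < t := by
      refine lt_of_le_of_lt ?_ h3
      refine single_le_sum (f := fun k => ((filter (fun z => S.δ (γ k) z ≤ ρ)
        (filter (fun z => S.δ y z ≤ 3 * r₀ + ρ) Z)).card : ℝ)) (fun _ _ => by positivity) ?_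
      exact mem_image.2 ⟨k, by simp; omega, rfl⟩
    refine lt_of_le_of_lt ?_ hle
    have : S.cnt Z (γ (k * h)) ρ ≤ (filter (fun z => S.δ (γ (k * h)) z ≤ ρ)
        (filter (fun z => S.δ y z ≤ 3 * r₀ + ρ) Z)).card := by
      apply card_le_card
      intro z hz
      rw [mem_filter] at hz
      rw [mem_filter, mem_filter]
      refine ⟨⟨hz.1, ?_⟩, hz.2⟩
      -- the sample point is within `3 r₀` of `y`
      have hpos : S.δ y (γ (k * h)) ≤ 3 * r₀ := by
        rcases le_total (S.δ c.1 c.2) (k * h) with hk' | hk'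
        · rw [h1 _ hk']; omega
        · have h4 := S.δ_path γ h2 0 (k * h)
          rw [zero_add, h0] at h4
          have h5 := S.δ_tri y c.1 (γ (k * h))
          omega
      have := S.δ_tri y (γ (k * h)) z
      omega
    exact_mod_cast this
  have := chain_of_path (S := S) (h := h) γ h2 m hlight
  rw [h0, h1 (m * h) (by omega)] at this
  exact this

end Space

end Pool.Agent.Perc
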