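import Mathlib
import Pool.Agent.Helper68.Perc.Space

/-!
The combinatorial heart of the steering argument: in a space with doubling, at least cubically
growing balls and the geodesic averaging property, a point around which a finite set `Z` is sparse
at all scales can be joined by a short chain of light balls to a good point near a given target.
-/

namespace Pool.Agent.Perc.Space

open Finset

variable {V : Type*} (S : Space V)

/-- growth assumptions -/
structure Gr (K C : ℕ) : Prop where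
  dbl : ∀ r, 1 ≤ r → S.v (2 * r) ≤ K * S.v r
  gr : ∀ k r, 1 ≤ r → 8 ^ k * S.v r ≤ C * S.v (2 ^ k * r)

variable {S}

lemma v_pos (x : V) (r : ℕ) : 0 < S.v r := by
  rw [← S.card_ball x r, card_pos]
  exact ⟨x, by rw [S.mem_ball, S.δ_self]; omega⟩

lemma v_mono (x : V) {r r' : ℕ} (h : r ≤ r') : S.v r ≤ S.v r' := by
  rw [← S.card_ball x r, ← S.card_ball x r']
  apply card_le_card
  intro y hy
  rw [S.mem_ball] at hy ⊢
  omega

/-- The constants of the steering argument. -/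
structure Cst (K C : ℕ) (lam : ℝ) (n3 n : ℕ) : Prop where
  lam_pos : 0 < lam
  n3_ge : 4 ≤ n3
  n_ge : n3 + 6 ≤ n
  n16 : 16 ≤ n
  c1 : 4 * lam * (5 / 2 : ℝ) ^ (6 + n3) < 1
  c2 : (K * C * 2 ^ 26 * (5 / 2 : ℝ) ^ (n3 + 3)) * lam < 1
  c3 : (2 * C * 8 ^ 4 * 2 / lam) * (5 / 16 : ℝ) ^ n3 ≤ 1 / 2
  c4 : (K * C * 2 ^ 25 * (5 / 2 : ℝ) ^ (n3 + 2)) * (5 / 8 : ℝ) ^ (n - n3 - 2) < 1
  c5 : (K ^ 5 * C * 2 ^ 24 : ℝ) * (5 / 8 : ℝ) ^ n < 1

/-- sparseness at the start of a move of level `N = n j` -/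
def Start (lam β : ℝ) (n3 p N : ℕ) (Z : Finset V) (y : V) : Prop :=
  (∀ i : ℕ, i + n3 ≤ N → (S.cnt Z y (2 ^ i * p) : ℝ) ≤ 2 * lam * (5 / 2 : ℝ) ^ (i + n3) * β) ∧
    (S.cnt Z y (2 ^ (N + 4) * p) : ℝ) ≤ (5 / 2 : ℝ) ^ N * β

section

variable {K C : ℕ} {lam β : ℝ} {n3 n p N : ℕ} {Z : Finset V} {y : V}

/-- all points near the start are light -/
lemma light_near (hc : Cst K C lam n3 n) (hβ : 0 < β)
    (hst : S.Start lam β n3 p (N + n) Z y) (w : V) (hw : S.δ y w ≤ 2 ^ (N + 5) * p) :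
    (S.cnt Z w (2 ^ (N + 5) * p) : ℝ) < (5 / 2 : ℝ) ^ N * β / 2 := by
  have h1 : S.cnt Z w (2 ^ (N + 5) * p) ≤ S.cnt Z y (2 ^ (N + 6) * p) := by
    apply S.cnt_mono_rad
    have : 2 ^ (N + 6) * p = 2 ^ (N + 5) * p + 2 ^ (N + 5) * p := by ring
    omega
  have h2 := hst.1 (N + 6) (by have := hc.n_ge; omega)
  have h3 : (S.cnt Z w (2 ^ (N + 5) * p) : ℝ) ≤ S.cnt Z y (2 ^ (N + 6) * p) := by
    exact_mod_cast h1
  have h4 := hc.c1
  have h5 : 2 * lam * (5 / 2 : ℝ) ^ (N + 6 + n3) * β =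
      (4 * lam * (5 / 2 : ℝ) ^ (6 + n3)) * ((5 / 2 : ℝ) ^ N * β / 2) := by
    rw [add_assoc, pow_add]; ring
  have h6 : 0 < (5 / 2 : ℝ) ^ N * β / 2 := by positivity
  calc (S.cnt Z w (2 ^ (N + 5) * p) : ℝ) ≤ _ := h3.trans h2
    _ = (4 * lam * (5 / 2 : ℝ) ^ (6 + n3)) * ((5 / 2 : ℝ) ^ N * β / 2) := h5
    _ < 1 * ((5 / 2 : ℝ) ^ N * β / 2) := by
        apply mul_lt_mul_of_pos_right h4 h6
    _ = _ := one_mul _

lemma half_step (hp : 2 ≤ p) (N : ℕ) : 2 ^ N * p ≤ 4 * (2 ^ N * p / 2) := by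
  have : 1 ≤ 2 ^ N := Nat.one_le_two_pow
  have h2 : 2 ≤ 2 ^ N * p := by nlinarith
  omega

lemma half_pos' (hp : 2 ≤ p) (N : ℕ) : 0 < 2 ^ N * p / 2 := by
  have : 1 ≤ 2 ^ N := Nat.one_le_two_pow
  have h2 : 2 ≤ 2 ^ N * p := by nlinarith
  omega

/-- chains to all points near the start -/
lemma chain_near (hc : Cst K C lam n3 n) (hβ : 0 < β) (hp : 2 ≤ p)
    (hst : S.Start lam β n3 p (N + n) Z y) (w : V) (hw : S.δ y w ≤ 2 ^ (N + 5) * p) :
    S.Chain (2 ^ N * p / 2) (2 ^ (N + 5) * p) ((5 / 2 : ℝ) ^ N * β / 2) Z (2 ^ (5 + 4)) y w := by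
  obtain ⟨γ, h0, h1, h2⟩ := S.path y w
  have hh := half_step (p := p) hp N
  have key := chain_of_path (S := S) (h := 2 ^ N * p / 2) (ρ := 2 ^ (N + 5) * p)
    (t := (5 / 2 : ℝ) ^ N * β / 2) (Z := Z) γ h2 (2 ^ (5 + 4)) (by
      intro k _
      apply light_near hc hβ hst
      rcases le_total (S.δ y w) (k * (2 ^ N * p / 2)) with hk | hk
      · rw [h1 _ hk]; exact hw
      · have := S.δ_path γ h2 0 (k * (2 ^ N * p / 2))
        rw [zero_add, h0] at this
        omega)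
  rw [h0, h1 _ ?_] at key
  · exact key
  · have e : 2 ^ (N + 5) * p = 32 * (2 ^ N * p) := by ring
    rw [e] at hw
    omega

open Classical in
/-- points joined to `y` by a chain of length `2 ^ (u + 4)` inside the ball of radius
`2 ^ (N + u) p` -/
noncomputable def Rch (S : Space V) (β : ℝ) (p N : ℕ) (Z : Finset V) (y : V) (u : ℕ) : Finset V :=
  (S.ball y (2 ^ (N + u) * p)).filter fun w =>
    S.Chain (2 ^ N * p / 2) (2 ^ (N + 5) * p) ((5 / 2 : ℝ) ^ N * β / 2) Z (2 ^ (u + 4)) y w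

/-- the numerical condition in the growth step -/
lemma growth_num (hc : Cst K C lam n3 n) (hβ : 0 < β) {u : ℕ} (hu : 5 ≤ u) (N : ℕ)
    {a b e X A B : ℝ} (ha : 0 < a) (hb : 0 < b) (he : 0 ≤ e) (hae : 8 ^ (u - 5) * e ≤ C * a)
    (hX0 : 0 ≤ X)
    (hX : X ≤ 2 * lam * (5 / 2 : ℝ) ^ (N + u + 3 + n3) * β ∨
      (X ≤ (5 / 2 : ℝ) ^ (N + n) * β ∧ n ≤ u + n3 + 2))
    (hA : 3 * a ≤ 4 * A) (hB : b < 4 * B) :
    ((2 : ℝ) ^ (u + 4) + 1) * (K * b) * e * X < A * B * ((5 / 2 : ℝ) ^ N * β / 2) := by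
  have h8 : (0 : ℝ) < 8 ^ u := by positivity
  have hT : (0 : ℝ) < (5 / 2) ^ N * β := by positivity
  have e1 : (8 : ℝ) ^ u = 8 ^ (u - 5) * 8 ^ 5 := by
    rw [← pow_add]; congr 1; omega
  have h1 : (8 : ℝ) ^ u * e ≤ 8 ^ 5 * (C * a) := by
    rw [e1]
    have : (0 : ℝ) < 8 ^ 5 := by norm_num
    nlinarith
  have hq : (2 : ℝ) ^ u * (5 / 2) ^ u = (5 / 8) ^ u * 8 ^ u := by
    rw [← mul_pow, ← mul_pow]; norm_num
  have hKC : (0 : ℝ) ≤ K * C := by positivity
  -- key bound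
  have key : (2 : ℝ) ^ (u + 5) * (K * C) * 8 ^ 5 * X ≤ 8 ^ u * (1 / 32) * ((5 / 2 : ℝ) ^ N * β) := by
    rcases hX with hX | ⟨hX, hn⟩
    · have h2 := hc.c2
      have h3 : (5 / 8 : ℝ) ^ u ≤ 1 := pow_le_one₀ (by norm_num) (by norm_num)
      calc (2 : ℝ) ^ (u + 5) * (K * C) * 8 ^ 5 * X
          ≤ (2 : ℝ) ^ (u + 5) * (K * C) * 8 ^ 5 * (2 * lam * (5 / 2 : ℝ) ^ (N + u + 3 + n3) * β) :=
            mul_le_mul_of_nonneg_left hX (by positivity)
        _ = ((2 : ℝ) ^ u * (5 / 2) ^ u) * ((K * C * 2 ^ 26 * (5 / 2 : ℝ) ^ (n3 + 3)) * lam) *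
            (1 / 32) * ((5 / 2 : ℝ) ^ N * β) := by
            rw [show N + u + 3 + n3 = N + u + (n3 + 3) by ring]
            rw [pow_add (5 / 2 : ℝ) (N + u), pow_add (5 / 2 : ℝ) N u, pow_add (2 : ℝ) u 5]
            norm_num
            ring
        _ = (5 / 8 : ℝ) ^ u * ((K * C * 2 ^ 26 * (5 / 2 : ℝ) ^ (n3 + 3)) * lam) *
            (8 ^ u * (1 / 32) * ((5 / 2 : ℝ) ^ N * β)) := by rw [hq]; ring
        _ ≤ 1 * 1 * (8 ^ u * (1 / 32) * ((5 / 2 : ℝ) ^ N * β)) := by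
            apply mul_le_mul_of_nonneg_right _ (by positivity)
            apply mul_le_mul h3 h2.le
            · have := hc.lam_pos
              positivity
            · norm_num
        _ = _ := by ring
    · have h4 := hc.c4
      have h5 : (5 / 2 : ℝ) ^ (N + n) ≤ (5 / 2 : ℝ) ^ (N + (u + (n3 + 2))) :=
        pow_le_pow_right₀ (by norm_num) (by omega)
      have h6 : (5 / 8 : ℝ) ^ u ≤ (5 / 8 : ℝ) ^ (n - n3 - 2) :=
        pow_le_pow_of_le_one (by norm_num) (by norm_num) (by omega)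
      calc (2 : ℝ) ^ (u + 5) * (K * C) * 8 ^ 5 * X
          ≤ (2 : ℝ) ^ (u + 5) * (K * C) * 8 ^ 5 * ((5 / 2 : ℝ) ^ (N + (u + (n3 + 2))) * β) := by
            apply mul_le_mul_of_nonneg_left _ (by positivity)
            exact hX.trans (mul_le_mul_of_nonneg_right h5 hβ.le)
        _ = ((2 : ℝ) ^ u * (5 / 2) ^ u) * (K * C * 2 ^ 25 * (5 / 2 : ℝ) ^ (n3 + 2)) *
            (1 / 32) * ((5 / 2 : ℝ) ^ N * β) := by
            rw [pow_add (5 / 2 : ℝ) N, pow_add (5 / 2 : ℝ) u, pow_add (2 : ℝ) u 5]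
            norm_num
            ring
        _ = ((K * C * 2 ^ 25 * (5 / 2 : ℝ) ^ (n3 + 2)) * (5 / 8 : ℝ) ^ u) *
            (8 ^ u * (1 / 32) * ((5 / 2 : ℝ) ^ N * β)) := by rw [hq]; ring
        _ ≤ 1 * (8 ^ u * (1 / 32) * ((5 / 2 : ℝ) ^ N * β)) := by
            apply mul_le_mul_of_nonneg_right _ (by positivity)
            refine le_trans ?_ h4.le
            apply mul_le_mul_of_nonneg_left h6 (by positivity)
        _ = _ := by ring
  have h2u : ((2 : ℝ) ^ (u + 4) + 1) ≤ 2 ^ (u + 5) := by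
    have : (1 : ℝ) ≤ 2 ^ (u + 4) := one_le_pow₀ (by norm_num)
    rw [pow_succ (2 : ℝ) (u + 4)]
    linarith
  have hA0 : 0 < A := by linarith
  have hB0 : 0 < B := by linarith
  -- multiply by `8 ^ u`
  have main : 8 ^ u * (((2 : ℝ) ^ (u + 4) + 1) * (K * b) * e * X) <
      8 ^ u * (A * B * ((5 / 2 : ℝ) ^ N * β / 2)) := by
    calc 8 ^ u * (((2 : ℝ) ^ (u + 4) + 1) * (K * b) * e * X)
        ≤ 8 ^ u * ((2 : ℝ) ^ (u + 5) * (K * b) * e * X) := by
          apply mul_le_mul_of_nonneg_left _ h8.le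
          apply mul_le_mul_of_nonneg_right _ hX0
          apply mul_le_mul_of_nonneg_right _ he
          apply mul_le_mul_of_nonneg_right h2u (by positivity)
      _ = (2 : ℝ) ^ (u + 5) * (K * b) * (8 ^ u * e) * X := by ring
      _ ≤ (2 : ℝ) ^ (u + 5) * (K * b) * (8 ^ 5 * (C * a)) * X := by
          apply mul_le_mul_of_nonneg_right _ hX0
          apply mul_le_mul_of_nonneg_left h1 (by positivity)
      _ = a * b * ((2 : ℝ) ^ (u + 5) * (K * C) * 8 ^ 5 * X) := by ring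
      _ ≤ a * b * (8 ^ u * (1 / 32) * ((5 / 2 : ℝ) ^ N * β)) := by
          apply mul_le_mul_of_nonneg_left key (by positivity)
      _ < (4 / 3 * A) * (4 * B) * (8 ^ u * (1 / 32) * ((5 / 2 : ℝ) ^ N * β)) := by
          apply mul_lt_mul_of_pos_right _ (by positivity)
          have hA' : a ≤ 4 / 3 * A := by linarith
          nlinarith
      _ ≤ 8 ^ u * (A * B * ((5 / 2 : ℝ) ^ N * β / 2)) := by
          have hP : 0 < 8 ^ u * (A * B * ((5 / 2 : ℝ) ^ N * β)) := by positivity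
          have e2 : (4 / 3 * A) * (4 * B) * (8 ^ u * (1 / 32) * ((5 / 2 : ℝ) ^ N * β)) =
            1 / 6 * (8 ^ u * (A * B * ((5 / 2 : ℝ) ^ N * β))) := by ring
          have e3 : 8 ^ u * (A * B * ((5 / 2 : ℝ) ^ N * β / 2)) =
            1 / 2 * (8 ^ u * (A * B * ((5 / 2 : ℝ) ^ N * β))) := by ring
          rw [e2, e3]
          linarith
  exact lt_of_mul_lt_mul_left main h8.le

/-- growth of the set of points joined to the start by chains -/
lemma reach_growth (hg : S.Gr K C) (hc : Cst K C lam n3 n) (hβ : 0 < β) (hp : 2 ≤ p)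
    (hst : S.Start lam β n3 p (N + n) Z y) (u : ℕ) (hu : 5 ≤ u) (hun : u ≤ n) :
    3 * S.v (2 ^ (N + u) * p) ≤ 4 * (Rch S β p N Z y u).card := by
  classical
  induction u, hu using Nat.le_induction with
  | base =>
    have : Rch S β p N Z y 5 = S.ball y (2 ^ (N + 5) * p) := by
      unfold Rch
      apply filter_true_of_mem
      intro w hw
      rw [S.mem_ball] at hw
      exact chain_near hc hβ hp hst w hw
    rw [this, S.card_ball]
    omega
  | succ u hu ih =>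
    have ih := ih (by omega)
    by_contra hcon
    push Not at hcon
    have h1p : 1 ≤ 2 ^ (N + u) := Nat.one_le_two_pow
    set F : Finset V := S.ball y (2 ^ (N + (u + 1)) * p) \ Rch S β p N Z y (u + 1) with hF
    have hFc : F.card + (Rch S β p N Z y (u + 1)).card = S.v (2 ^ (N + (u + 1)) * p) := by
      rw [hF, ← S.card_ball y]
      exact card_sdiff_add_card_eq_card (filter_subset _ _)
    have hF4 : S.v (2 ^ (N + (u + 1)) * p) < 4 * F.card := by omega
    have hhalf := half_step (p := p) hp N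
    have hX : S.cnt Z y (3 * (2 ^ (N + (u + 1)) * p) + 2 ^ (N + 5) * p) ≤
        S.cnt Z y (2 ^ (N + u + 3) * p) := by
      apply S.cnt_mono_rad
      rw [S.δ_self, zero_add]
      have e1 : 2 ^ (N + (u + 1)) * p = 2 * (2 ^ (N + u) * p) := by ring
      have e2 : 2 ^ (N + u + 3) * p = 8 * (2 ^ (N + u) * p) := by ring
      have e3 : 2 ^ (N + 5) * p ≤ 2 ^ (N + u) * p := by
        apply Nat.mul_le_mul_right
        exact Nat.pow_le_pow_right (by norm_num) (by omega)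
      omega
    have hXr : (S.cnt Z y (3 * (2 ^ (N + (u + 1)) * p) + 2 ^ (N + 5) * p) : ℝ) ≤
        2 * lam * (5 / 2 : ℝ) ^ (N + u + 3 + n3) * β ∨
        ((S.cnt Z y (3 * (2 ^ (N + (u + 1)) * p) + 2 ^ (N + 5) * p) : ℝ) ≤
          (5 / 2 : ℝ) ^ (N + n) * β ∧ n ≤ u + n3 + 2) := by
      have hXr' : (S.cnt Z y (3 * (2 ^ (N + (u + 1)) * p) + 2 ^ (N + 5) * p) : ℝ) ≤
        S.cnt Z y (2 ^ (N + u + 3) * p) := by exact_mod_cast hX
      by_cases h : N + u + 3 + n3 ≤ N + n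
      · left
        exact hXr'.trans (hst.1 _ h)
      · right
        refine ⟨hXr'.trans (le_trans ?_ hst.2), by omega⟩
        have : S.cnt Z y (2 ^ (N + u + 3) * p) ≤ S.cnt Z y (2 ^ (N + n + 4) * p) := by
          apply S.cnt_mono_rad
          rw [S.δ_self, zero_add]
          apply Nat.mul_le_mul_right
          exact Nat.pow_le_pow_right (by norm_num) (by omega)
        exact_mod_cast this
    have hgr := hg.gr (u - 5) (2 ^ (N + 5) * p) (by
      have : 1 ≤ 2 ^ (N + 5) := Nat.one_le_two_pow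
      nlinarith)
    have e4 : 2 ^ (u - 5) * (2 ^ (N + 5) * p) = 2 ^ (N + u) * p := by
      rw [← mul_assoc, ← pow_add]; congr 2; omega
    rw [e4] at hgr
    have hdbl := hg.dbl (2 ^ (N + (u + 1)) * p) (by
      have : 1 ≤ 2 ^ (N + (u + 1)) := Nat.one_le_two_pow
      nlinarith)
    have hv1 := v_pos (S := S) y (2 ^ (N + u) * p)
    have hv2 := v_pos (S := S) y (2 ^ (N + (u + 1)) * p)
    have hnum := growth_num hc hβ hu N
      (a := (S.v (2 ^ (N + u) * p) : ℝ)) (b := (S.v (2 ^ (N + (u + 1)) * p) : ℝ))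
      (e := (S.v (2 ^ (N + 5) * p) : ℝ))
      (X := (S.cnt Z y (3 * (2 ^ (N + (u + 1)) * p) + 2 ^ (N + 5) * p) : ℝ))
      (A := ((Rch S β p N Z y u).card : ℝ)) (B := (F.card : ℝ))
      (by exact_mod_cast hv1) (by exact_mod_cast hv2) (by positivity) (by exact_mod_cast hgr)
      (by positivity) hXr (by exact_mod_cast ih) (by exact_mod_cast hF4)
    obtain ⟨a, ha, b, hb, hab⟩ := S.exists_chain y (2 ^ (N + (u + 1)) * p) (2 ^ N * p / 2)
      (2 ^ (N + 5) * p) (2 ^ (u + 4)) (half_pos' hp N) (by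
        have e1 : 2 * (2 ^ (N + (u + 1)) * p) = 4 * (2 ^ u * (2 ^ N * p)) := by ring
        have e2 : 2 ^ (u + 4) * (2 ^ N * p / 2) = 4 * (2 ^ u * (4 * (2 ^ N * p / 2))) := by ring
        rw [e1, e2]
        gcongr) ((5 / 2 : ℝ) ^ N * β / 2) Z
      (Rch S β p N Z y u) F (by
        intro x hx
        have := (mem_filter.1 hx).1
        rw [S.mem_ball] at this
        refine this.trans ?_
        apply Nat.mul_le_mul_right
        exact Nat.pow_le_pow_right (by norm_num) (by omega)) (by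
        intro x hx
        have := (mem_sdiff.1 hx).1
        rwa [S.mem_ball] at this) (by
        refine lt_of_le_of_lt ?_ hnum
        push_cast
        have hd : (S.v (2 * (2 ^ (N + (u + 1)) * p)) : ℝ) ≤
          K * S.v (2 ^ (N + (u + 1)) * p) := by exact_mod_cast hdbl
        gcongr)
    have hchain : S.Chain (2 ^ N * p / 2) (2 ^ (N + 5) * p) ((5 / 2 : ℝ) ^ N * β / 2) Z
        (2 ^ (u + 1 + 4)) y b := by
      have h1 := (mem_filter.1 ha).2
      have h2 := h1.trans hab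
      have e : 2 ^ (u + 1 + 4) = 2 ^ (u + 4) + 2 ^ (u + 4) := by ring
      rw [e]
      exact h2
    exact (mem_sdiff.1 hb).2 (mem_filter.2 ⟨(mem_sdiff.1 hb).1, hchain⟩)

lemma geom_aux (M : ℕ) : ∑ k ∈ range M, (5 / 16 : ℝ) ^ k ≤ 2 := by
  have : ∑ k ∈ range M, (5 / 16 : ℝ) ^ k + 16 / 11 * (5 / 16 : ℝ) ^ M = 16 / 11 := by
    induction M with
    | zero => simp
    | succ M ih => rw [sum_range_succ, pow_succ]; linarith
  have h2 : (0 : ℝ) ≤ 16 / 11 * (5 / 16 : ℝ) ^ M := by positivity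
  linarith

open Classical in
/-- points near the target around which `Z` is sparse at all scales from `2 ^ N p` on -/
noncomputable def Gd (S : Space V) (lam β : ℝ) (n3 n p N : ℕ) (Z : Finset V) (c' : V) : Finset V :=
  (S.ball c' (2 ^ (N + n - 3) * p)).filter fun w => ∀ i, N ≤ i → i + n3 ≤ N + n →
    (S.cnt Z w (2 ^ (i + 1) * p) : ℝ) ≤ lam / 2 * (5 / 2 : ℝ) ^ i * β

/-- at least half of the points near the target are good -/
lemma good_half (hg : S.Gr K C) (hc : Cst K C lam n3 n) (hβ : 0 < β) (hp : 2 ≤ p)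
    (hst : S.Start lam β n3 p (N + n) Z y) (c' : V) (hc' : S.δ y c' ≤ 2 ^ (N + n) * p) :
    S.v (2 ^ (N + n - 3) * p) ≤ 2 * (Gd S lam β n3 n p N Z c').card := by
  classical
  have hn3 := hc.n3_ge
  have hn := hc.n_ge
  have hlam := hc.lam_pos
  set b' := S.v (2 ^ (N + n - 3) * p) with hb'
  -- bad points of scale `N + n - e`
  let bad : ℕ → Finset V := fun e => (S.ball c' (2 ^ (N + n - 3) * p)).filter fun w =>
    lam / 2 * (5 / 2 : ℝ) ^ (N + n - e) * β < S.cnt Z w (2 ^ (N + n - e + 1) * p)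
  have hcover : S.ball c' (2 ^ (N + n - 3) * p) \ Gd S lam β n3 n p N Z c' ⊆
      (Ico n3 (n + 1)).biUnion bad := by
    intro w hw
    rw [mem_sdiff] at hw
    obtain ⟨hw1, hw2⟩ := hw
    unfold Gd at hw2
    rw [mem_filter] at hw2
    have : ∃ i, N ≤ i ∧ i + n3 ≤ N + n ∧
        lam / 2 * (5 / 2 : ℝ) ^ i * β < S.cnt Z w (2 ^ (i + 1) * p) := by
      by_contra hcon
      push Not at hcon
      exact hw2 ⟨hw1, fun i h1 h2 => hcon i h1 h2⟩
    obtain ⟨i, h1, h2, h3⟩ := this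
    rw [mem_biUnion]
    refine ⟨N + n - i, ?_, ?_⟩
    · rw [mem_Ico]; omega
    · have e : N + n - (N + n - i) = i := by omega
      simp only [bad, mem_filter, e]
      exact ⟨hw1, h3⟩
  -- each bad set is small
  have hbad : ∀ e ∈ Ico n3 (n + 1), ((bad e).card : ℝ) ≤
      (2 * C * 8 ^ 4 / lam) * b' * (5 / 16 : ℝ) ^ e := by
    intro e he
    rw [mem_Ico] at he
    set i := N + n - e with hi
    let Zl := Z.filter (fun z => S.δ y z ≤ 2 ^ (N + n + 4) * p)
    have hZl : ((Zl.card : ℕ) : ℝ) ≤ (5 / 2 : ℝ) ^ (N + n) * β := hst.2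
    have h1 : ((bad e).card : ℝ) * (lam / 2 * (5 / 2 : ℝ) ^ i * β) ≤
        Zl.card * S.v (2 ^ (i + 1) * p) := by
      apply S.card_heavy
      intro w hw
      simp only [bad, mem_filter] at hw
      obtain ⟨hw1, hw2⟩ := hw
      rw [← hi] at hw2
      refine hw2.le.trans ?_
      have : S.cnt Z w (2 ^ (i + 1) * p) ≤ S.cnt Zl w (2 ^ (i + 1) * p) := by
        apply card_le_card
        intro z hz
        rw [mem_filter] at hz ⊢
        refine ⟨?_, hz.2⟩
        rw [mem_filter]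
        refine ⟨hz.1, ?_⟩
        rw [S.mem_ball] at hw1
        have t1 := S.δ_tri y c' w
        have t2 := S.δ_tri y w z
        have t3 : 2 ^ (N + n - 3) * p ≤ 2 ^ (N + n) * p := by
          apply Nat.mul_le_mul_right
          exact Nat.pow_le_pow_right (by norm_num) (by omega)
        have t4 : 2 ^ (i + 1) * p ≤ 2 ^ (N + n) * p := by
          apply Nat.mul_le_mul_right
          exact Nat.pow_le_pow_right (by norm_num) (by omega)
        have t5 : 2 ^ (N + n + 4) * p = 16 * (2 ^ (N + n) * p) := by ring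
        omega
      exact_mod_cast this
    have h2 := hg.gr (N + n - 3 - (i + 1)) (2 ^ (i + 1) * p) (by
      have : 1 ≤ 2 ^ (i + 1) := Nat.one_le_two_pow
      nlinarith)
    have e4 : 2 ^ (N + n - 3 - (i + 1)) * (2 ^ (i + 1) * p) = 2 ^ (N + n - 3) * p := by
      rw [← mul_assoc, ← pow_add]; congr 2; omega
    rw [e4, ← hb'] at h2
    have h2' : (8 : ℝ) ^ (N + n - 3 - (i + 1)) * S.v (2 ^ (i + 1) * p) ≤ C * b' := by
      exact_mod_cast h2
    have e5 : (8 : ℝ) ^ e = 8 ^ (N + n - 3 - (i + 1)) * 8 ^ 4 := by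
      rw [← pow_add]; congr 1; omega
    have h3 : (8 : ℝ) ^ e * S.v (2 ^ (i + 1) * p) ≤ 8 ^ 4 * (C * b') := by
      rw [e5]
      have : (0 : ℝ) < 8 ^ 4 := by norm_num
      nlinarith
    have e6 : (5 / 2 : ℝ) ^ (N + n) = (5 / 2 : ℝ) ^ i * (5 / 2 : ℝ) ^ e := by
      rw [← pow_add]; congr 1; omega
    have h4 : (8 : ℝ) ^ e * (((bad e).card : ℝ) * (lam / 2 * (5 / 2 : ℝ) ^ i * β)) ≤
        ((5 / 2 : ℝ) ^ i * (5 / 2 : ℝ) ^ e * β) * (8 ^ 4 * (C * b')) := by
      calc (8 : ℝ) ^ e * (((bad e).card : ℝ) * (lam / 2 * (5 / 2 : ℝ) ^ i * β))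
          ≤ (8 : ℝ) ^ e * (Zl.card * S.v (2 ^ (i + 1) * p)) :=
            mul_le_mul_of_nonneg_left h1 (by positivity)
        _ = Zl.card * ((8 : ℝ) ^ e * S.v (2 ^ (i + 1) * p)) := by ring
        _ ≤ ((5 / 2 : ℝ) ^ i * (5 / 2 : ℝ) ^ e * β) * (8 ^ 4 * (C * b')) := by
            rw [← e6]
            exact mul_le_mul hZl h3 (by positivity) (by positivity)
    have hT : 0 < (5 / 2 : ℝ) ^ i * β := by positivity
    have h5 : ((8 : ℝ) ^ e * (bad e).card) * lam ≤ 2 * C * 8 ^ 4 * b' * (5 / 2 : ℝ) ^ e := by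
      have h6 : (((8 : ℝ) ^ e * (bad e).card) * lam) * ((5 / 2 : ℝ) ^ i * β) ≤
          (2 * C * 8 ^ 4 * b' * (5 / 2 : ℝ) ^ e) * ((5 / 2 : ℝ) ^ i * β) := by
        calc (((8 : ℝ) ^ e * (bad e).card) * lam) * ((5 / 2 : ℝ) ^ i * β)
            = 2 * ((8 : ℝ) ^ e * (((bad e).card : ℝ) * (lam / 2 * (5 / 2 : ℝ) ^ i * β))) := by
              ring
          _ ≤ 2 * (((5 / 2 : ℝ) ^ i * (5 / 2 : ℝ) ^ e * β) * (8 ^ 4 * (C * b'))) := by
              linarith
          _ = _ := by ring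
      exact le_of_mul_le_mul_right h6 hT
    have e7 : (5 / 16 : ℝ) ^ e = (5 / 2 : ℝ) ^ e / 8 ^ e := by
      rw [← div_pow]; norm_num
    rw [e7]
    have h8 : (0 : ℝ) < 8 ^ e := by positivity
    rw [show 2 * (C : ℝ) * 8 ^ 4 / lam * b' * ((5 / 2 : ℝ) ^ e / 8 ^ e) =
      (2 * C * 8 ^ 4 * b' * (5 / 2 : ℝ) ^ e) / (lam * 8 ^ e) by field_simp]
    rw [le_div_iff₀ (by positivity)]
    calc ((bad e).card : ℝ) * (lam * 8 ^ e) = ((8 : ℝ) ^ e * (bad e).card) * lam := by ring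
      _ ≤ _ := h5
  -- summation
  have hsum : (((S.ball c' (2 ^ (N + n - 3) * p) \ Gd S lam β n3 n p N Z c').card : ℕ) : ℝ) ≤
      b' / 2 := by
    calc (((S.ball c' (2 ^ (N + n - 3) * p) \ Gd S lam β n3 n p N Z c').card : ℕ) : ℝ)
        ≤ ((((Ico n3 (n + 1)).biUnion bad).card : ℕ) : ℝ) := by
          exact_mod_cast card_le_card hcover
      _ ≤ ((∑ e ∈ Ico n3 (n + 1), (bad e).card : ℕ) : ℝ) := by
          exact_mod_cast card_biUnion_le
      _ = ∑ e ∈ Ico n3 (n + 1), ((bad e).card : ℝ) := by push_cast; rfl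
      _ ≤ ∑ e ∈ Ico n3 (n + 1), (2 * C * 8 ^ 4 / lam) * b' * (5 / 16 : ℝ) ^ e :=
          sum_le_sum hbad
      _ = (2 * C * 8 ^ 4 / lam) * b' * ((5 / 16 : ℝ) ^ n3 *
          ∑ k ∈ range (n + 1 - n3), (5 / 16 : ℝ) ^ k) := by
          rw [← mul_sum, sum_Ico_eq_sum_range]
          congr 1
          rw [mul_sum]
          apply sum_congr rfl
          intro k _
          rw [pow_add]
      _ ≤ (2 * C * 8 ^ 4 / lam) * b' * ((5 / 16 : ℝ) ^ n3 * 2) := by
          apply mul_le_mul_of_nonneg_left _ (by positivity)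
          apply mul_le_mul_of_nonneg_left (geom_aux _) (by positivity)
      _ = ((2 * C * 8 ^ 4 * 2 / lam) * (5 / 16 : ℝ) ^ n3) * b' := by ring
      _ ≤ (1 / 2) * b' := by
          apply mul_le_mul_of_nonneg_right hc.c3 (by positivity)
      _ = b' / 2 := by ring
  have hcard : (S.ball c' (2 ^ (N + n - 3) * p) \ Gd S lam β n3 n p N Z c').card +
      (Gd S lam β n3 n p N Z c').card = b' := by
    rw [hb', ← S.card_ball c']
    exact card_sdiff_add_card_eq_card (filter_subset _ _)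
  have hcard' : (((S.ball c' (2 ^ (N + n - 3) * p) \ Gd S lam β n3 n p N Z c').card : ℕ) : ℝ) +
      (Gd S lam β n3 n p N Z c').card = b' := by exact_mod_cast hcard
  have : (b' : ℝ) ≤ 2 * (Gd S lam β n3 n p N Z c').card := by linarith
  exact_mod_cast this

/-- **The chain lemma.** -/
theorem exists_good_chain (hg : S.Gr K C) (hc : Cst K C lam n3 n) (hβ : 0 < β) (hp : 2 ≤ p)
    (hst : S.Start lam β n3 p (N + n) Z y) (c' : V) (hc' : S.δ y c' ≤ 2 ^ (N + n) * p) :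
    ∃ w, S.Chain (2 ^ N * p / 2) (2 ^ (N + 5) * p) ((5 / 2 : ℝ) ^ N * β / 2) Z (2 ^ (n + 5)) y w ∧
      S.δ c' w ≤ 2 ^ (N + n - 3) * p ∧
      ∀ i, N ≤ i → i + n3 ≤ N + n →
        (S.cnt Z w (2 ^ (i + 1) * p) : ℝ) ≤ lam / 2 * (5 / 2 : ℝ) ^ i * β := by
  classical
  have hn3 := hc.n3_ge
  have hn := hc.n_ge
  have hlam := hc.lam_pos
  have hR := reach_growth hg hc hβ hp hst n (by omega) le_rfl
  have hG := good_half hg hc hβ hp hst c' hc'
  have hv1 := v_pos (S := S) y (2 ^ (N + n) * p)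
  have hv2 := v_pos (S := S) y (2 ^ (N + n - 3) * p)
  set a := S.v (2 ^ (N + n) * p) with ha
  set b := S.v (2 ^ (N + n - 3) * p) with hb
  have hgr := hg.gr (n - 5) (2 ^ (N + 5) * p) (by
    have : 1 ≤ 2 ^ (N + 5) := Nat.one_le_two_pow
    nlinarith)
  have e4 : 2 ^ (n - 5) * (2 ^ (N + 5) * p) = 2 ^ (N + n) * p := by
    rw [← mul_assoc, ← pow_add]; congr 2; omega
  rw [e4, ← ha] at hgr
  have hdbl : ∀ k, S.v (2 ^ k * (2 ^ (N + n - 3) * p)) ≤ K ^ k * b := by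
    intro k
    induction k with
    | zero => simp [hb]
    | succ k ih =>
      have := hg.dbl (2 ^ k * (2 ^ (N + n - 3) * p)) (by
        have h1 : 1 ≤ 2 ^ k := Nat.one_le_two_pow
        have h2 : 1 ≤ 2 ^ (N + n - 3) := Nat.one_le_two_pow
        have h3 : 1 ≤ 2 ^ (N + n - 3) * p := by nlinarith
        nlinarith)
      have e : 2 ^ (k + 1) * (2 ^ (N + n - 3) * p) = 2 * (2 ^ k * (2 ^ (N + n - 3) * p)) := by ring
      rw [e]
      calc S.v (2 * (2 ^ k * (2 ^ (N + n - 3) * p))) ≤ K * S.v (2 ^ k * (2 ^ (N + n - 3) * p)) :=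
            this
        _ ≤ K * (K ^ k * b) := Nat.mul_le_mul_left _ ih
        _ = K ^ (k + 1) * b := by ring
  have hX : S.cnt Z y (3 * (2 ^ (N + n + 1) * p) + 2 ^ (N + 5) * p) ≤
      S.cnt Z y (2 ^ (N + n + 4) * p) := by
    apply S.cnt_mono_rad
    rw [S.δ_self, zero_add]
    have e1 : 2 ^ (N + n + 1) * p = 2 * (2 ^ (N + n) * p) := by ring
    have e2 : 2 ^ (N + n + 4) * p = 16 * (2 ^ (N + n) * p) := by ring
    have e3 : 2 ^ (N + 5) * p ≤ 2 ^ (N + n) * p := by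
      apply Nat.mul_le_mul_right
      exact Nat.pow_le_pow_right (by norm_num) (by omega)
    omega
  have hXr : (S.cnt Z y (3 * (2 ^ (N + n + 1) * p) + 2 ^ (N + 5) * p) : ℝ) ≤
      (5 / 2 : ℝ) ^ (N + n) * β := by
    refine le_trans ?_ hst.2
    exact_mod_cast hX
  have hhalf := half_step (p := p) hp N
  obtain ⟨a', ha', b', hb', hab⟩ := S.exists_chain y (2 ^ (N + n + 1) * p) (2 ^ N * p / 2)
    (2 ^ (N + 5) * p) (2 ^ (n + 4)) (half_pos' hp N) (by
      have e1 : 2 * (2 ^ (N + n + 1) * p) = 4 * (2 ^ n * (2 ^ N * p)) := by ring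
      have e2 : 2 ^ (n + 4) * (2 ^ N * p / 2) = 4 * (2 ^ n * (4 * (2 ^ N * p / 2))) := by ring
      rw [e1, e2]
      gcongr) ((5 / 2 : ℝ) ^ N * β / 2) Z (Rch S β p N Z y n) (Gd S lam β n3 n p N Z c') (by
      intro x hx
      have := (mem_filter.1 hx).1
      rw [S.mem_ball] at this
      refine this.trans ?_
      apply Nat.mul_le_mul_right
      exact Nat.pow_le_pow_right (by norm_num) (by omega)) (by
      intro x hx
      have := (mem_filter.1 hx).1
      rw [S.mem_ball] at this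
      have t1 := S.δ_tri y c' x
      have t3 : 2 ^ (N + n - 3) * p ≤ 2 ^ (N + n) * p := by
        apply Nat.mul_le_mul_right
        exact Nat.pow_le_pow_right (by norm_num) (by omega)
      have e1 : 2 ^ (N + n + 1) * p = 2 * (2 ^ (N + n) * p) := by ring
      omega) (by
      -- the numerical condition
      have h8 : (0 : ℝ) < 8 ^ n := by positivity
      have e5 : (8 : ℝ) ^ n = 8 ^ (n - 5) * 8 ^ 5 := by
        rw [← pow_add]; congr 1; omega
      have hgr' : (8 : ℝ) ^ (n - 5) * S.v (2 ^ (N + 5) * p) ≤ C * a := by exact_mod_cast hgr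
      have h1 : (8 : ℝ) ^ n * S.v (2 ^ (N + 5) * p) ≤ 8 ^ 5 * (C * a) := by
        rw [e5]
        have : (0 : ℝ) < 8 ^ 5 := by norm_num
        nlinarith
      have h2 : (S.v (2 * (2 ^ (N + n + 1) * p)) : ℝ) ≤ K ^ 5 * b := by
        have := hdbl 5
        have e6 : 2 ^ 5 * (2 ^ (N + n - 3) * p) = 2 * (2 ^ (N + n + 1) * p) := by
          rw [← mul_assoc, ← pow_add, ← mul_assoc, ← pow_succ']; congr 2; omega
        rw [e6] at this
        exact_mod_cast this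
      have hq : (2 : ℝ) ^ n * (5 / 2) ^ n = (5 / 8) ^ n * 8 ^ n := by
        rw [← mul_pow, ← mul_pow]; norm_num
      have h2u : ((2 : ℝ) ^ (n + 4) + 1) ≤ 2 ^ (n + 5) := by
        have : (1 : ℝ) ≤ 2 ^ (n + 4) := one_le_pow₀ (by norm_num)
        rw [pow_succ (2 : ℝ) (n + 4)]
        linarith
      have hA : (3 : ℝ) * a ≤ 4 * (Rch S β p N Z y n).card := by exact_mod_cast hR
      have hB : (b : ℝ) ≤ 2 * (Gd S lam β n3 n p N Z c').card := by exact_mod_cast hG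
      have ha0 : (0 : ℝ) < a := by exact_mod_cast hv1
      have hb0 : (0 : ℝ) < b := by exact_mod_cast hv2
      set A : ℝ := ((Rch S β p N Z y n).card : ℝ) with hAdef
      set B : ℝ := ((Gd S lam β n3 n p N Z c').card : ℝ) with hBdef
      have hA0 : 0 < A := by linarith
      have hB0 : 0 < B := by linarith
      push_cast
      have main : 8 ^ n * (((2 : ℝ) ^ (n + 4) + 1) * S.v (2 * (2 ^ (N + n + 1) * p)) *
          S.v (2 ^ (N + 5) * p) * S.cnt Z y (3 * (2 ^ (N + n + 1) * p) + 2 ^ (N + 5) * p)) <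
          8 ^ n * (A * B * ((5 / 2 : ℝ) ^ N * β / 2)) := by
        calc 8 ^ n * (((2 : ℝ) ^ (n + 4) + 1) * S.v (2 * (2 ^ (N + n + 1) * p)) *
            S.v (2 ^ (N + 5) * p) * S.cnt Z y (3 * (2 ^ (N + n + 1) * p) + 2 ^ (N + 5) * p))
            ≤ 8 ^ n * ((2 : ℝ) ^ (n + 5) * (K ^ 5 * b) *
              S.v (2 ^ (N + 5) * p) * ((5 / 2 : ℝ) ^ (N + n) * β)) := by
              gcongr
          _ = (2 : ℝ) ^ (n + 5) * (K ^ 5 * b) * (8 ^ n * S.v (2 ^ (N + 5) * p)) *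
              ((5 / 2 : ℝ) ^ (N + n) * β) := by ring
          _ ≤ (2 : ℝ) ^ (n + 5) * (K ^ 5 * b) * (8 ^ 5 * (C * a)) *
              ((5 / 2 : ℝ) ^ (N + n) * β) := by gcongr
          _ = a * b * (((2 : ℝ) ^ n * (5 / 2) ^ n) * (K ^ 5 * C * 2 ^ 24) * (1 / 16) *
              ((5 / 2 : ℝ) ^ N * β)) := by
              rw [pow_add (5 / 2 : ℝ) N, pow_add (2 : ℝ) n 5]
              norm_num
              ring
          _ = a * b * (((K ^ 5 * C * 2 ^ 24) * (5 / 8 : ℝ) ^ n) * (8 ^ n * (1 / 16) *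
              ((5 / 2 : ℝ) ^ N * β))) := by rw [hq]; ring
          _ < a * b * (1 * (8 ^ n * (1 / 16) * ((5 / 2 : ℝ) ^ N * β))) := by
              apply mul_lt_mul_of_pos_left _ (by positivity)
              apply mul_lt_mul_of_pos_right hc.c5 (by positivity)
          _ ≤ (4 / 3 * A) * (2 * B) * (1 * (8 ^ n * (1 / 16) * ((5 / 2 : ℝ) ^ N * β))) := by
              apply mul_le_mul_of_nonneg_right _ (by positivity)
              apply mul_le_mul (by linarith) hB hb0.le (by positivity)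
          _ ≤ 8 ^ n * (A * B * ((5 / 2 : ℝ) ^ N * β / 2)) := by
              have hP : 0 < 8 ^ n * (A * B * ((5 / 2 : ℝ) ^ N * β)) := by positivity
              have e2 : (4 / 3 * A) * (2 * B) * (1 * (8 ^ n * (1 / 16) * ((5 / 2 : ℝ) ^ N * β))) =
                1 / 6 * (8 ^ n * (A * B * ((5 / 2 : ℝ) ^ N * β))) := by ring
              have e3 : 8 ^ n * (A * B * ((5 / 2 : ℝ) ^ N * β / 2)) =
                1 / 2 * (8 ^ n * (A * B * ((5 / 2 : ℝ) ^ N * β))) := by ring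
              rw [e2, e3]
              linarith
      exact lt_of_mul_lt_mul_left main h8.le)
  refine ⟨b', ?_, ?_, ?_⟩
  · have h1 := (mem_filter.1 ha').2
    have h2 := h1.trans hab
    have e : 2 ^ (n + 5) = 2 ^ (n + 4) + 2 ^ (n + 4) := by ring
    rw [e]
    exact h2
  · have := (mem_filter.1 hb').1
    rwa [S.mem_ball] at this
  · exact (mem_filter.1 hb').2

end

end Pool.Agent.Perc.Space
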