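import Mathlib
import Pool.Agent.Helper68.Perc.Chains

/-! The constants of the steering argument exist. -/

namespace Pool.Agent.Perc.Space

open Filter

/-- The constants exist. -/
theorem exists_cst (K C : ℕ) : ∃ (lam : ℝ) (n3 n : ℕ), Cst K C lam n3 n ∧
    (2 : ℝ) ^ (n + 5) ≤ (5 / 2 : ℝ) ^ n := by
  -- choice of `lam`
  set D : ℝ := 8 * (5 / 2 : ℝ) ^ 6 + K * C * 2 ^ 26 * (5 / 2 : ℝ) ^ 3 + 1 with hD
  have hD0 : 0 < D := by positivity
  have hT : ∀ m : ℕ, (0 : ℝ) < (5 / 2) ^ m := fun m => by positivity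
  -- choice of `n3`
  have h1 : Tendsto (fun m : ℕ => (4 * C * 8 ^ 4 * D) * (25 / 32 : ℝ) ^ m) atTop (nhds 0) := by
    have := (tendsto_pow_atTop_nhds_zero_of_lt_one (r := (25 / 32 : ℝ)) (by norm_num)
      (by norm_num)).const_mul (4 * C * 8 ^ 4 * D)
    simpa using this
  obtain ⟨n3, hn3, h4⟩ := ((h1.eventually_lt_const (u := (1 / 2 : ℝ)) (by norm_num)).and
    (eventually_ge_atTop 4)).exists
  -- choice of `n`
  have h2 : Tendsto (fun m : ℕ => (K * C * 2 ^ 25 * (5 / 2 : ℝ) ^ (n3 + 2)) *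
      (5 / 8 : ℝ) ^ (m - n3 - 2)) atTop (nhds 0) := by
    have h := (tendsto_pow_atTop_nhds_zero_of_lt_one (r := (5 / 8 : ℝ)) (by norm_num)
      (by norm_num)).const_mul (K * C * 2 ^ 25 * (5 / 2 : ℝ) ^ (n3 + 2))
    rw [mul_zero] at h
    refine h.comp ?_
    have : (fun m : ℕ => m - n3 - 2) = fun m : ℕ => m - (n3 + 2) := by
      funext m; omega
    rw [this]
    exact tendsto_sub_atTop_nat _
  have h3 : Tendsto (fun m : ℕ => (K ^ 5 * C * 2 ^ 24 : ℝ) * (5 / 8 : ℝ) ^ m) atTop (nhds 0) := by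
    have := (tendsto_pow_atTop_nhds_zero_of_lt_one (r := (5 / 8 : ℝ)) (by norm_num)
      (by norm_num)).const_mul (K ^ 5 * C * 2 ^ 24 : ℝ)
    simpa using this
  have h5 : Tendsto (fun m : ℕ => (32 : ℝ) * (4 / 5 : ℝ) ^ m) atTop (nhds 0) := by
    have := (tendsto_pow_atTop_nhds_zero_of_lt_one (r := (4 / 5 : ℝ)) (by norm_num)
      (by norm_num)).const_mul (32 : ℝ)
    simpa using this
  obtain ⟨n, hn⟩ := ((h2.eventually_lt_const (u := (1 : ℝ)) (by norm_num)).and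
    ((h3.eventually_lt_const (u := (1 : ℝ)) (by norm_num)).and
      ((h5.eventually_lt_const (u := (1 : ℝ)) (by norm_num)).and
        (eventually_ge_atTop (n3 + 22))))).exists
  obtain ⟨hn1, hn2, hn5, hn6⟩ := hn
  refine ⟨1 / (D * (5 / 2 : ℝ) ^ n3), n3, n, ?_, ?_⟩
  · refine ⟨by positivity, h4, by omega, by omega, ?_, ?_, ?_, hn1, hn2⟩
    · have e : 4 * (1 / (D * (5 / 2 : ℝ) ^ n3)) * (5 / 2 : ℝ) ^ (6 + n3) =
        4 * (5 / 2 : ℝ) ^ 6 / D := by
        rw [pow_add]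
        have := (hT n3).ne'
        field_simp
      rw [e, div_lt_one hD0]
      have : (0 : ℝ) ≤ K * C * 2 ^ 26 * (5 / 2 : ℝ) ^ 3 := by positivity
      have h6 : (0 : ℝ) < (5 / 2 : ℝ) ^ 6 := by positivity
      rw [hD]; linarith
    · have e : (K * C * 2 ^ 26 * (5 / 2 : ℝ) ^ (n3 + 3)) * (1 / (D * (5 / 2 : ℝ) ^ n3)) =
        (K * C * 2 ^ 26 * (5 / 2 : ℝ) ^ 3) / D := by
        rw [pow_add]
        have := (hT n3).ne'
        field_simp
      rw [e, div_lt_one hD0]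
      have h6 : (0 : ℝ) < (5 / 2 : ℝ) ^ 6 := by positivity
      rw [hD]; linarith
    · have e : (2 * C * 8 ^ 4 * 2 / (1 / (D * (5 / 2 : ℝ) ^ n3))) * (5 / 16 : ℝ) ^ n3 =
        (4 * C * 8 ^ 4 * D) * (25 / 32 : ℝ) ^ n3 := by
        have e1 : (25 / 32 : ℝ) ^ n3 = (5 / 2 : ℝ) ^ n3 * (5 / 16 : ℝ) ^ n3 := by
          rw [← mul_pow]; norm_num
        rw [e1]
        have := (hT n3).ne'
        field_simp
        ring
      rw [e]
      exact hn3.le
  · have e : (2 : ℝ) ^ (n + 5) = (32 * (4 / 5 : ℝ) ^ n) * (5 / 2 : ℝ) ^ n := by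
      rw [pow_add, mul_assoc, ← mul_pow]; norm_num; ring
    rw [e]
    have := hT n
    nlinarith

end Pool.Agent.Perc.Space
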