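import Mathlib

/-!
The `(p, q)`-percolation game (Maker moves first): winning strategies, written exactly as in the
frozen statement of MP_31f454_co, and two criteria for them.
-/

namespace Pool.Agent.Perc

variable {V : Type}

/-- Breaker has a winning strategy in the `(p, q)`-percolation game on `G` with root `v₀`. -/
def BreakerWins (G : SimpleGraph V) (v₀ : V) (p q : ℕ) : Prop :=
  ∃ τ : List (Finset (Sym2 V)) → Finset (Sym2 V),
    ∀ M : ℕ → Finset (Sym2 V), ∃ n : ℕ,
      (∀ k ≤ n, (M k).card = p ∧ ((M k : Finset (Sym2 V)) : Set (Sym2 V)) ⊆ G.edgeSet ∧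
        Disjoint ((M k : Finset (Sym2 V)) : Set (Sym2 V))
          ((⋃ i < k, ((M i : Finset (Sym2 V)) : Set (Sym2 V))) ∪
            ⋃ i < k, ((τ (List.ofFn (fun j : Fin (i + 1) => M j.val)) : Finset (Sym2 V)) :
              Set (Sym2 V)))) →
      (∀ k ≤ n, (τ (List.ofFn (fun j : Fin (k + 1) => M j.val))).card = q ∧
        ((τ (List.ofFn (fun j : Fin (k + 1) => M j.val)) : Finset (Sym2 V)) : Set (Sym2 V))
          ⊆ G.edgeSet ∧
        Disjoint ((τ (List.ofFn (fun j : Fin (k + 1) => M j.val)) : Finset (Sym2 V)) :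
            Set (Sym2 V))
          ((⋃ i ≤ k, ((M i : Finset (Sym2 V)) : Set (Sym2 V))) ∪
            ⋃ i < k, ((τ (List.ofFn (fun j : Fin (i + 1) => M j.val)) : Finset (Sym2 V)) :
              Set (Sym2 V)))) ∧
      {w : V | (G.deleteEdges (⋃ i ≤ n,
          ((τ (List.ofFn (fun j : Fin (i + 1) => M j.val)) : Finset (Sym2 V)) :
            Set (Sym2 V)))).Reachable v₀ w}.Finite

/-- Maker has a winning strategy in the `(p, q)`-percolation game on `G` with root `v₀`. -/
def MakerWins (G : SimpleGraph V) (v₀ : V) (p q : ℕ) : Prop :=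
  ∃ σ : List (Finset (Sym2 V)) → Finset (Sym2 V),
    ∀ B : ℕ → Finset (Sym2 V), ∀ n : ℕ,
      (∀ k < n, (B k).card = q ∧ ((B k : Finset (Sym2 V)) : Set (Sym2 V)) ⊆ G.edgeSet ∧
        Disjoint ((B k : Finset (Sym2 V)) : Set (Sym2 V))
          ((⋃ i ≤ k, ((σ (List.ofFn (fun j : Fin i => B j.val)) : Finset (Sym2 V)) :
              Set (Sym2 V))) ∪
            ⋃ i < k, ((B i : Finset (Sym2 V)) : Set (Sym2 V)))) →
      ((σ (List.ofFn (fun j : Fin n => B j.val))).card = p ∧
        ((σ (List.ofFn (fun j : Fin n => B j.val)) : Finset (Sym2 V)) : Set (Sym2 V))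
          ⊆ G.edgeSet ∧
        Disjoint ((σ (List.ofFn (fun j : Fin n => B j.val)) : Finset (Sym2 V)) : Set (Sym2 V))
          ((⋃ i < n, ((σ (List.ofFn (fun j : Fin i => B j.val)) : Finset (Sym2 V)) :
              Set (Sym2 V))) ∪
            ⋃ i < n, ((B i : Finset (Sym2 V)) : Set (Sym2 V)))) ∧
      (((B n).card = q ∧ ((B n : Finset (Sym2 V)) : Set (Sym2 V)) ⊆ G.edgeSet ∧
        Disjoint ((B n : Finset (Sym2 V)) : Set (Sym2 V))
          ((⋃ i ≤ n, ((σ (List.ofFn (fun j : Fin i => B j.val)) : Finset (Sym2 V)) :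
              Set (Sym2 V))) ∪
            ⋃ i < n, ((B i : Finset (Sym2 V)) : Set (Sym2 V)))) →
        {w : V | (G.deleteEdges (⋃ i ≤ n, ((B i : Finset (Sym2 V)) :
          Set (Sym2 V)))).Reachable v₀ w}.Infinite)

/-- If the edge boundary of `W` is contained in `F` then the component of `v₀ ∈ W` after deleting
`F` is contained in `W`. -/
lemma reachable_subset {G : SimpleGraph V} {v₀ : V} {W : Set V} {F : Set (Sym2 V)} (hv : v₀ ∈ W)
    (hF : ∀ x ∈ W, ∀ y, y ∉ W → G.Adj x y → s(x, y) ∈ F) :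
    {w : V | (G.deleteEdges F).Reachable v₀ w} ⊆ W := by
  intro w hw
  obtain ⟨walk⟩ := hw
  induction walk with
  | nil => exact hv
  | cons h _ ih =>
    rename_i u x z
    apply ih
    by_contra hx
    rw [SimpleGraph.deleteEdges_adj] at h
    exact h.2 (hF _ hv _ hx h.1)

/-- If after every first move of Maker there is a finite set containing the root whose edge
boundary avoids Maker's edges and has at most `q` edges, then Breaker wins (in one turn). -/
theorem breakerWins_of_one_turn {G : SimpleGraph V} {v₀ : V} {p q : ℕ}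
    (hinf : G.edgeSet.Infinite)
    (h : ∀ M : Finset (Sym2 V), M.card = p → ((M : Finset (Sym2 V)) : Set (Sym2 V)) ⊆ G.edgeSet →
      ∃ W : Set V, W.Finite ∧ v₀ ∈ W ∧ ∃ F : Finset (Sym2 V),
        ((F : Finset (Sym2 V)) : Set (Sym2 V)) ⊆ G.edgeSet ∧ F.card ≤ q ∧
        Disjoint F M ∧ ∀ x ∈ W, ∀ y, y ∉ W → G.Adj x y → s(x, y) ∈ F) :
    BreakerWins G v₀ p q := by
  classical
  have hreply : ∀ M : Finset (Sym2 V), ∃ Y : Finset (Sym2 V),
      (M.card = p → ((M : Finset (Sym2 V)) : Set (Sym2 V)) ⊆ G.edgeSet →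
        Y.card = q ∧ ((Y : Finset (Sym2 V)) : Set (Sym2 V)) ⊆ G.edgeSet ∧
        Disjoint ((Y : Finset (Sym2 V)) : Set (Sym2 V)) ((M : Finset (Sym2 V)) : Set (Sym2 V)) ∧
        {w : V | (G.deleteEdges ((Y : Finset (Sym2 V)) : Set (Sym2 V))).Reachable v₀ w}.Finite) := by
    intro M
    by_cases hM : M.card = p ∧ ((M : Finset (Sym2 V)) : Set (Sym2 V)) ⊆ G.edgeSet
    · obtain ⟨W, hWf, hvW, F, hFG, hFq, hFM, hFW⟩ := h M hM.1 hM.2
      have ht : (G.edgeSet \ ((M : Finset (Sym2 V)) : Set (Sym2 V))).Infinite :=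
        hinf.sdiff M.finite_toSet
      have hst : ((F : Finset (Sym2 V)) : Set (Sym2 V)) ⊆
          G.edgeSet \ ((M : Finset (Sym2 V)) : Set (Sym2 V)) := by
        intro e he
        exact ⟨hFG he, fun hm => (Finset.disjoint_left.mp hFM) he hm⟩
      obtain ⟨S, hFS, hSt, hSq⟩ := ht.exists_superset_ncard_eq (k := q) hst F.finite_toSet
        (by rw [Set.ncard_coe_finset]; exact hFq)
      by_cases hq : q = 0
      · -- then `F` is empty and Breaker plays the empty set
        have hF0 : F = ∅ := by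
          rw [← Finset.card_eq_zero]; omega
        refine ⟨∅, fun _ _ => ⟨by simp [hq], by simp, by simp, ?_⟩⟩
        apply hWf.subset
        apply reachable_subset hvW
        intro x hx y hy hxy
        have := hFW x hx y hy hxy
        rw [hF0] at this
        exact absurd this (Finset.notMem_empty _)
      · have hSf : S.Finite := Set.finite_of_ncard_pos (by omega)
        refine ⟨hSf.toFinset, fun _ _ => ⟨?_, ?_, ?_, ?_⟩⟩
        · rw [← Set.ncard_eq_toFinset_card S hSf]; exact hSq
        · rw [Set.Finite.coe_toFinset]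
          exact fun e he => (hSt he).1
        · rw [Set.Finite.coe_toFinset, Set.disjoint_left]
          exact fun e he => (hSt he).2
        · apply hWf.subset
          rw [Set.Finite.coe_toFinset]
          apply reachable_subset hvW
          intro x hx y hy hxy
          exact hFS (hFW x hx y hy hxy)
    · exact ⟨∅, fun h1 h2 => absurd ⟨h1, h2⟩ hM⟩
  choose Y hY using hreply
  refine ⟨fun L => match L with | [] => ∅ | M :: _ => Y M, ?_⟩
  intro M
  refine ⟨0, ?_⟩
  intro hval
  obtain ⟨h1, h2, -⟩ := hval 0 le_rfl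
  obtain ⟨h3, h4, h5, h6⟩ := hY (M 0) h1 h2
  have hl : List.ofFn (fun j : Fin (0 + 1) => M j.val) = [M 0] := by simp
  refine ⟨?_, ?_⟩
  · intro k hk
    have hk0 : k = 0 := by omega
    subst hk0
    rw [hl]
    refine ⟨h3, h4, ?_⟩
    rw [Set.disjoint_left] at h5 ⊢
    intro e he hcon
    rcases hcon with hcon | hcon
    · simp only [Set.mem_iUnion] at hcon
      obtain ⟨i, hi, hei⟩ := hcon
      have hi0 : i = 0 := by omega
      subst hi0
      exact h5 he hei
    · simp only [Set.mem_iUnion] at hcon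
      obtain ⟨i, hi, -⟩ := hcon
      omega
  · apply h6.subset
    intro w hw
    have hun : (⋃ i ≤ 0, (((fun L : List (Finset (Sym2 V)) => match L with
        | [] => (∅ : Finset (Sym2 V)) | M :: _ => Y M)
          (List.ofFn (fun j : Fin (i + 1) => M j.val)) : Finset (Sym2 V)) : Set (Sym2 V)))
        = ((Y (M 0) : Finset (Sym2 V)) : Set (Sym2 V)) := by
      ext e
      simp only [Set.mem_iUnion]
      constructor
      · rintro ⟨i, hi, he⟩
        have hi0 : i = 0 := by omega
        subst hi0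
        rw [hl] at he
        exact he
      · intro he
        refine ⟨0, le_rfl, ?_⟩
        rw [hl]
        exact he
    have hw' : (G.deleteEdges (⋃ i ≤ 0, (((fun L : List (Finset (Sym2 V)) => match L with
        | [] => (∅ : Finset (Sym2 V)) | M :: _ => Y M)
          (List.ofFn (fun j : Fin (i + 1) => M j.val)) : Finset (Sym2 V)) :
          Set (Sym2 V)))).Reachable v₀ w := hw
    rw [hun] at hw'
    exact hw'

section Maker

variable [DecidableEq V]

/-- The totals of both players after the listed moves of Breaker, when Maker always plays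
`next M B`. -/
def totals (next : Finset (Sym2 V) → Finset (Sym2 V) → Finset (Sym2 V))
    (L : List (Finset (Sym2 V))) : Finset (Sym2 V) × Finset (Sym2 V) :=
  L.foldl (fun s Y => (s.1 ∪ next s.1 s.2, s.2 ∪ Y)) (∅, ∅)

lemma totals_succ (next : Finset (Sym2 V) → Finset (Sym2 V) → Finset (Sym2 V))
    (B : ℕ → Finset (Sym2 V)) (n : ℕ) :
    totals next (List.ofFn (fun j : Fin (n + 1) => B j.val)) =
      ((totals next (List.ofFn (fun j : Fin n => B j.val))).1 ∪
        next (totals next (List.ofFn (fun j : Fin n => B j.val))).1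
          (totals next (List.ofFn (fun j : Fin n => B j.val))).2,
      (totals next (List.ofFn (fun j : Fin n => B j.val))).2 ∪ B n) := by
  rw [List.ofFn_succ']
  unfold totals
  rw [List.concat_eq_append, List.foldl_append]
  simp

/-- If an invariant of the pair (Maker's edges, Breaker's edges) can be maintained forever and
implies that the component of the root is infinite, then Maker wins. -/
theorem makerWins_of_invariant {G : SimpleGraph V} {v₀ : V} {p q : ℕ}
    (I : Finset (Sym2 V) → Finset (Sym2 V) → Prop) (h0 : I ∅ ∅)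
    (hstep : ∀ M B, I M B → ∃ X : Finset (Sym2 V), X.card = p ∧
      ((X : Finset (Sym2 V)) : Set (Sym2 V)) ⊆ G.edgeSet ∧ Disjoint X (M ∪ B) ∧
      ∀ Y : Finset (Sym2 V), Y.card = q → ((Y : Finset (Sym2 V)) : Set (Sym2 V)) ⊆ G.edgeSet →
        Disjoint Y (M ∪ X ∪ B) → I (M ∪ X) (B ∪ Y))
    (hfin : ∀ M B, I M B →
      {w : V | (G.deleteEdges ((B : Finset (Sym2 V)) : Set (Sym2 V))).Reachable v₀ w}.Infinite) :
    MakerWins G v₀ p q := by
  classical
  have hex : ∀ M B, ∃ X : Finset (Sym2 V), I M B → X.card = p ∧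
      ((X : Finset (Sym2 V)) : Set (Sym2 V)) ⊆ G.edgeSet ∧ Disjoint X (M ∪ B) ∧
      ∀ Y : Finset (Sym2 V), Y.card = q → ((Y : Finset (Sym2 V)) : Set (Sym2 V)) ⊆ G.edgeSet →
        Disjoint Y (M ∪ X ∪ B) → I (M ∪ X) (B ∪ Y) := by
    intro M B
    by_cases h : I M B
    · obtain ⟨X, hX⟩ := hstep M B h
      exact ⟨X, fun _ => hX⟩
    · exact ⟨∅, fun h' => absurd h' h⟩
  choose next hnext using hex
  refine ⟨fun L => next (totals next L).1 (totals next L).2, ?_⟩
  intro B n hval
  set T : ℕ → Finset (Sym2 V) × Finset (Sym2 V) := fun k =>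
    totals next (List.ofFn (fun j : Fin k => B j.val)) with hT
  have hTs : ∀ k, T (k + 1) = ((T k).1 ∪ next (T k).1 (T k).2, (T k).2 ∪ B k) := fun k =>
    totals_succ next B k
  have hT0 : T 0 = (∅, ∅) := by simp [hT, totals]
  have hM : ∀ k, (⋃ i < k, ((next (T i).1 (T i).2 : Finset (Sym2 V)) : Set (Sym2 V)))
      = (((T k).1 : Finset (Sym2 V)) : Set (Sym2 V)) := by
    intro k
    induction k with
    | zero => rw [hT0]; simp
    | succ k ih =>
      rw [Set.biUnion_lt_succ, ih, hTs]
      push_cast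
      rfl
  have hB : ∀ k, (⋃ i < k, ((B i : Finset (Sym2 V)) : Set (Sym2 V)))
      = (((T k).2 : Finset (Sym2 V)) : Set (Sym2 V)) := by
    intro k
    induction k with
    | zero => rw [hT0]; simp
    | succ k ih =>
      rw [Set.biUnion_lt_succ, ih, hTs]
      push_cast
      rfl
  have hM' : ∀ k, (⋃ i ≤ k, ((next (T i).1 (T i).2 : Finset (Sym2 V)) : Set (Sym2 V)))
      = (((T (k + 1)).1 : Finset (Sym2 V)) : Set (Sym2 V)) := by
    intro k
    rw [← hM (k + 1)]
    simp only [Nat.lt_succ_iff]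
  have hB' : ∀ k, (⋃ i ≤ k, ((B i : Finset (Sym2 V)) : Set (Sym2 V)))
      = (((T (k + 1)).2 : Finset (Sym2 V)) : Set (Sym2 V)) := by
    intro k
    rw [← hB (k + 1)]
    simp only [Nat.lt_succ_iff]
  -- one round
  have hround : ∀ k, I (T k).1 (T k).2 →
      ((B k).card = q ∧ ((B k : Finset (Sym2 V)) : Set (Sym2 V)) ⊆ G.edgeSet ∧
        Disjoint ((B k : Finset (Sym2 V)) : Set (Sym2 V))
          ((⋃ i ≤ k, ((next (T i).1 (T i).2 : Finset (Sym2 V)) : Set (Sym2 V))) ∪
            ⋃ i < k, ((B i : Finset (Sym2 V)) : Set (Sym2 V)))) →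
      I (T (k + 1)).1 (T (k + 1)).2 := by
    intro k hI hv
    obtain ⟨h1, h2, h3⟩ := hv
    obtain ⟨-, -, -, hnx⟩ := hnext _ _ hI
    have h4 := hnx (B k) h1 h2 ?_
    · rw [hTs]
      exact h4
    · rw [hM' k, hB k, hTs] at h3
      rw [← Finset.disjoint_coe]
      push_cast at h3 ⊢
      exact h3
  have hI : ∀ k ≤ n, I (T k).1 (T k).2 := by
    intro k hk
    induction k with
    | zero => rw [hT0]; exact h0
    | succ k ih => exact hround k (ih (by omega)) (hval k (by omega))
  obtain ⟨h1, h2, h3, -⟩ := hnext _ _ (hI n le_rfl)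
  refine ⟨⟨h1, h2, ?_⟩, ?_⟩
  · have h4 : Disjoint ((next (T n).1 (T n).2 : Finset (Sym2 V)) : Set (Sym2 V))
        ((⋃ i < n, ((next (T i).1 (T i).2 : Finset (Sym2 V)) : Set (Sym2 V))) ∪
          ⋃ i < n, ((B i : Finset (Sym2 V)) : Set (Sym2 V))) := by
      rw [hM n, hB n]
      rw [← Finset.disjoint_coe] at h3
      push_cast at h3
      exact h3
    exact h4
  · intro hv
    have h4 := hround n (hI n le_rfl) hv
    have h5 := hfin _ _ h4
    rw [← hB' n] at h5
    exact h5

end Maker

end Pool.Agent.Perc
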