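import Mathlib

/-!
Edge boundaries of finite vertex sets in a locally finite graph, submodularity, capacities.
-/

namespace Pool.Agent.Perc

open Finset

variable {V : Type} [DecidableEq V] (G : SimpleGraph V) [G.LocallyFinite]

/-- The finite set of edges of `G` with exactly one endpoint in `W`. -/
def bdry (W : Finset V) : Finset (Sym2 V) :=
  W.biUnion fun x => ((G.neighborFinset x).filter fun y => y ∉ W).image fun y => s(x, y)

variable {G}

lemma mem_bdry {W : Finset V} {x y : V} :
    s(x, y) ∈ bdry G W ↔ G.Adj x y ∧ ((x ∈ W ∧ y ∉ W) ∨ (y ∈ W ∧ x ∉ W)) := by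
  unfold bdry
  simp only [mem_biUnion, mem_image, mem_filter, SimpleGraph.mem_neighborFinset]
  constructor
  · rintro ⟨a, ha, b, ⟨hab, hb⟩, h⟩
    rw [Sym2.eq_iff] at h
    rcases h with ⟨rfl, rfl⟩ | ⟨rfl, rfl⟩
    · exact ⟨hab, Or.inl ⟨ha, hb⟩⟩
    · exact ⟨hab.symm, Or.inr ⟨ha, hb⟩⟩
  · rintro ⟨hxy, ⟨hx, hy⟩ | ⟨hy, hx⟩⟩
    · exact ⟨x, hx, y, ⟨hxy, hy⟩, rfl⟩
    · exact ⟨y, hy, x, ⟨hxy.symm, hx⟩, Sym2.eq_swap⟩

lemma bdry_subset (W : Finset V) : ((bdry G W : Finset (Sym2 V)) : Set (Sym2 V)) ⊆ G.edgeSet := by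
  intro e he
  induction e using Sym2.ind with
  | _ x y =>
    rw [mem_coe, mem_bdry] at he
    exact he.1

lemma adj_mem_of_not_bdry {W : Finset V} {x y : V} (hxy : G.Adj x y) (hx : x ∈ W)
    (h : s(x, y) ∉ bdry G W) : y ∈ W := by
  by_contra hy
  exact h (mem_bdry.mpr ⟨hxy, Or.inl ⟨hx, hy⟩⟩)

/-- Submodularity of the cut function. -/
lemma cut_submod (B : Finset (Sym2 V)) (P Q : Finset V) :
    (bdry G (P ∪ Q) \ B).card + (bdry G (P ∩ Q) \ B).card ≤
      (bdry G P \ B).card + (bdry G Q \ B).card := by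
  rw [← card_union_add_card_inter (bdry G (P ∪ Q) \ B), ← card_union_add_card_inter (bdry G P \ B)]
  apply Nat.add_le_add
  · apply card_le_card
    intro e
    induction e using Sym2.ind with
    | _ x y =>
      simp only [mem_union, mem_sdiff, mem_bdry, mem_inter]
      tauto
  · apply card_le_card
    intro e
    induction e using Sym2.ind with
    | _ x y =>
      simp only [mem_union, mem_sdiff, mem_bdry, mem_inter]
      tauto

/-- Splitting a vertex set into two disjoint parts. -/
lemma cut_split (B : Finset (Sym2 V)) {U R : Finset V} (hUR : Disjoint U R) :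
    (bdry G U \ B).card + (bdry G R \ B).card ≤
      (bdry G (U ∪ R) \ B).card + 2 * (bdry G U ∩ bdry G R).card := by
  have h1 : (bdry G U \ B).card + (bdry G R \ B).card
      = ((bdry G U \ B) ∪ (bdry G R \ B)).card + ((bdry G U \ B) ∩ (bdry G R \ B)).card :=
    (card_union_add_card_inter _ _).symm
  have h2 : ((bdry G U \ B) ∪ (bdry G R \ B)) ⊆
      (bdry G (U ∪ R) \ B) ∪ (bdry G U ∩ bdry G R) := by
    intro e
    induction e using Sym2.ind with
    | _ x y =>
      simp only [mem_union, mem_sdiff, mem_bdry, mem_inter]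
      have hd1 : x ∈ U → x ∉ R := fun h h' => (disjoint_left.mp hUR) h h'
      have hd2 : y ∈ U → y ∉ R := fun h h' => (disjoint_left.mp hUR) h h'
      tauto
  have h3 : ((bdry G U \ B) ∩ (bdry G R \ B)) ⊆ bdry G U ∩ bdry G R := by
    intro e he
    rw [mem_inter, mem_sdiff, mem_sdiff] at he
    exact mem_inter.mpr ⟨he.1.1, he.2.1⟩
  have h4 := card_le_card h2
  have h5 := card_le_card h3
  have h6 := card_union_le (bdry G (U ∪ R) \ B) (bdry G U ∩ bdry G R)
  omega

/-- `c` is a lower bound for the capacity from `v` to infinity: every finite vertex set containing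
`v` whose boundary contains no edge of `M` has at least `c` boundary edges outside `B`. -/
def Cap (G : SimpleGraph V) [G.LocallyFinite] (v : V) (M B : Finset (Sym2 V)) (c : ℝ) : Prop :=
  ∀ W : Finset V, v ∈ W → Disjoint (bdry G W) M → c ≤ ((bdry G W \ B).card : ℝ)

lemma Cap.mono_left {v : V} {M M' B : Finset (Sym2 V)} {c : ℝ} (h : Cap G v M B c)
    (hM : M ⊆ M') : Cap G v M' B c :=
  fun W hv hd => h W hv (hd.mono_right hM)

lemma Cap.mono_c {v : V} {M B : Finset (Sym2 V)} {c c' : ℝ} (h : Cap G v M B c)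
    (hc : c' ≤ c) : Cap G v M B c' :=
  fun W hv hd => hc.trans (h W hv hd)

lemma Cap.breaker {v : V} {M B B' : Finset (Sym2 V)} {c : ℝ} (h : Cap G v M B c) :
    Cap G v M (B ∪ B') (c - B'.card) := by
  intro W hv hd
  have h1 := h W hv hd
  have h2 : (bdry G W \ B).card ≤ (bdry G W \ (B ∪ B')).card + B'.card := by
    have h3 : bdry G W \ B ⊆ (bdry G W \ (B ∪ B')) ∪ B' := by
      intro e he
      rw [mem_sdiff] at he
      rw [mem_union, mem_sdiff, mem_union]
      by_cases h : e ∈ B'
      · exact Or.inr h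
      · exact Or.inl ⟨he.1, fun h' => h'.elim he.2 h⟩
    exact (card_le_card h3).trans (card_union_le _ _)
  have h4 : ((bdry G W \ B).card : ℝ) ≤ ((bdry G W \ (B ∪ B')).card : ℝ) + B'.card := by
    exact_mod_cast h2
  linarith

/-- Unions of near-minimal admissible sets are near-minimal. -/
lemma union_near_min {ι : Type} [DecidableEq ι] {v : V} {M B : Finset (Sym2 V)} {c a : ℝ}
    (hcap : Cap G v M B c) (W : ι → Finset V) (I : Finset ι) (hne : I.Nonempty)
    (hW : ∀ i ∈ I, v ∈ W i ∧ Disjoint (bdry G (W i)) M ∧ ((bdry G (W i) \ B).card : ℝ) ≤ c + a) :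
    v ∈ I.biUnion W ∧ Disjoint (bdry G (I.biUnion W)) M ∧
      ((bdry G (I.biUnion W) \ B).card : ℝ) ≤ c + I.card * a := by
  induction hne using Finset.Nonempty.cons_induction with
  | singleton i =>
    have h := hW i (mem_singleton_self i)
    simp only [singleton_biUnion, card_singleton, Nat.cast_one, one_mul]
    exact h
  | cons i I hi hne ih =>
    have h1 := hW i (mem_cons_self i I)
    have h2 := ih (fun j hj => hW j (mem_cons_of_mem hj))
    have hun : (cons i I hi).biUnion W = W i ∪ I.biUnion W := by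
      rw [cons_eq_insert, biUnion_insert]
    rw [hun]
    have hadm : ∀ P Q : Finset V, Disjoint (bdry G P) M → Disjoint (bdry G Q) M →
        Disjoint (bdry G (P ∪ Q)) M ∧ Disjoint (bdry G (P ∩ Q)) M := by
      intro P Q hP hQ
      rw [disjoint_left] at hP hQ
      constructor
      · rw [disjoint_left]
        intro e he heM
        induction e using Sym2.ind with
        | _ x y =>
          have hp := @hP s(x, y)
          have hq := @hQ s(x, y)
          simp only [mem_bdry, mem_union] at he hp hq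
          tauto
      · rw [disjoint_left]
        intro e he heM
        induction e using Sym2.ind with
        | _ x y =>
          have hp := @hP s(x, y)
          have hq := @hQ s(x, y)
          simp only [mem_bdry, mem_inter] at he hp hq
          tauto
    obtain ⟨hd1, hd2⟩ := hadm _ _ h1.2.1 h2.2.1
    refine ⟨mem_union_left _ h1.1, hd1, ?_⟩
    have h3 := hcap (W i ∩ I.biUnion W) (mem_inter.mpr ⟨h1.1, h2.1⟩) hd2
    have h4 := cut_submod (G := G) B (W i) (I.biUnion W)
    have h5 : ((bdry G (W i ∪ I.biUnion W) \ B).card : ℝ)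
        + ((bdry G (W i ∩ I.biUnion W) \ B).card : ℝ)
        ≤ ((bdry G (W i) \ B).card : ℝ) + ((bdry G (I.biUnion W) \ B).card : ℝ) := by
      exact_mod_cast h4
    rw [card_cons]
    push_cast
    linarith [h1.2.2, h2.2.2]

lemma card_bdry_le {D : ℕ} (hD : ∀ v, G.degree v ≤ D) (W : Finset V) :
    (bdry G W).card ≤ D * W.card := by
  unfold bdry
  calc (W.biUnion fun x => ((G.neighborFinset x).filter fun y => y ∉ W).image
        fun y => s(x, y)).card
      ≤ ∑ x ∈ W, (((G.neighborFinset x).filter fun y => y ∉ W).image fun y => s(x, y)).card :=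
        card_biUnion_le
    _ ≤ ∑ _x ∈ W, D := by
        apply sum_le_sum
        intro x _
        refine card_image_le.trans ((card_filter_le _ _).trans ?_)
        rw [SimpleGraph.card_neighborFinset_eq_degree]
        exact hD x
    _ = D * W.card := by rw [sum_const, smul_eq_mul, mul_comm]

/-- Edges between `U` and `R` counted by their endpoints in `R`. -/
lemma card_between_le {D : ℕ} (hD : ∀ v, G.degree v ≤ D) {U R T : Finset V}
    (hUR : Disjoint U R) (hT : ∀ x ∈ U, ∀ y ∈ R, G.Adj x y → y ∈ T) :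
    (bdry G U ∩ bdry G R).card ≤ D * T.card := by
  have hsub : bdry G U ∩ bdry G R ⊆
      T.biUnion fun y => (G.neighborFinset y).image fun x => s(y, x) := by
    intro e
    induction e using Sym2.ind with
    | _ x y =>
      intro he
      rw [mem_inter, mem_bdry, mem_bdry] at he
      obtain ⟨⟨hxy, h1⟩, -, h2⟩ := he
      have hd1 : x ∈ U → x ∉ R := fun h h' => (disjoint_left.mp hUR) h h'
      have hd2 : y ∈ U → y ∉ R := fun h h' => (disjoint_left.mp hUR) h h'
      rw [mem_biUnion]
      rcases h1 with ⟨hx, hy⟩ | ⟨hy, hx⟩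
      · have hyR : y ∈ R := by tauto
        refine ⟨y, hT x hx y hyR hxy, ?_⟩
        rw [mem_image]
        exact ⟨x, (SimpleGraph.mem_neighborFinset _ _ _).mpr hxy.symm, Sym2.eq_swap⟩
      · have hxR : x ∈ R := by tauto
        refine ⟨x, hT y hy x hxR hxy.symm, ?_⟩
        rw [mem_image]
        exact ⟨y, (SimpleGraph.mem_neighborFinset _ _ _).mpr hxy, rfl⟩
  calc (bdry G U ∩ bdry G R).card ≤ _ := card_le_card hsub
    _ ≤ ∑ y ∈ T, ((G.neighborFinset y).image fun x => s(y, x)).card := card_biUnion_le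
    _ ≤ ∑ _y ∈ T, D := by
        apply sum_le_sum
        intro y _
        refine card_image_le.trans ?_
        rw [SimpleGraph.card_neighborFinset_eq_degree]
        exact hD y
    _ = D * T.card := by rw [sum_const, smul_eq_mul, mul_comm]

end Pool.Agent.Perc
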