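import Mathlib
import Pool.Agent.Helper30.Perc.Game

/-!
Forcing in one-player-versus-adversary games given by a monotone one-round operator, and a
criterion for Maker's win in the `(p, q)`-percolation game: it is enough that she can go on for
ever, joining at least one new vertex to the root in every round.
-/

namespace Pool.Agent.Perc

open Finset

section abstract_force

variable {σ : Type*}

/-- `Forces R Q s`: starting from `s` one can force the play into `Q` in finitely many rounds, where
`R s T` means that from `s` one can force the state after one round to lie in `T`. -/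
inductive Forces (R : σ → (σ → Prop) → Prop) (Q : σ → Prop) : σ → Prop
  | here (s : σ) (h : Q s) : Forces R Q s
  | step (s : σ) (T : σ → Prop) (h : R s T) (h' : ∀ t, T t → Forces R Q t) : Forces R Q s

theorem Forces.trans {R : σ → (σ → Prop) → Prop} {Q Q' : σ → Prop} {s : σ}
    (h : Forces R Q s) (h' : ∀ t, Q t → Forces R Q' t) : Forces R Q' s := by
  induction h with
  | here s hs => exact h' s hs
  | step s T hR _ ih => exact Forces.step s T hR ih

theorem Forces.mono {R : σ → (σ → Prop) → Prop} {Q Q' : σ → Prop} {s : σ}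
    (h : Forces R Q s) (h' : ∀ t, Q t → Q' t) : Forces R Q' s :=
  h.trans fun t ht => Forces.here t (h' t ht)

/-- If from every state of `Good k` one can force, in at least one round, a state of
`Good (k + 1)`, then there is a set of states containing `Good 0` which one can stay in for ever. -/
theorem exists_closed {R : σ → (σ → Prop) → Prop}
    (Good : ℕ → σ → Prop)
    (h : ∀ k s, Good k s → ∃ T : σ → Prop, R s T ∧ ∀ t, T t → Forces R (Good (k + 1)) t) :
    ∃ I : σ → Prop, (∀ s, Good 0 s → I s) ∧ ∀ s, I s → ∃ T : σ → Prop, R s T ∧ ∀ t, T t → I t := by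
  refine ⟨fun s => ∃ k, Forces R (Good k) s, fun s hs => ⟨0, Forces.here s hs⟩, ?_⟩
  rintro s ⟨k, hs⟩
  cases hs with
  | here _ hs =>
    obtain ⟨T, hT, hT'⟩ := h k s hs
    exact ⟨T, hT, fun t ht => ⟨k + 1, hT' t ht⟩⟩
  | step _ T hT hT' => exact ⟨T, hT, fun t ht => ⟨k, hT' t ht⟩⟩

end abstract_force

variable {V : Type}

open Classical in
/-- The one-round operator of the percolation game: at the position `(M, B)` (Maker's edges,
Breaker's edges) Maker has a legal move after which, whatever Breaker's legal reply is, the new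
position lies in `T`. -/
def Round (G : SimpleGraph V) (p q : ℕ) (s : Finset (Sym2 V) × Finset (Sym2 V))
    (T : Finset (Sym2 V) × Finset (Sym2 V) → Prop) : Prop :=
  ∃ X : Finset (Sym2 V), X.card = p ∧ (X : Set (Sym2 V)) ⊆ G.edgeSet ∧
    Disjoint (X : Set (Sym2 V)) ((s.1 : Set (Sym2 V)) ∪ (s.2 : Set (Sym2 V))) ∧
    ∀ Y : Finset (Sym2 V), Y.card = q → (Y : Set (Sym2 V)) ⊆ G.edgeSet →
      Disjoint (Y : Set (Sym2 V)) (((s.1 ∪ X : Finset (Sym2 V)) : Set (Sym2 V)) ∪
        (s.2 : Set (Sym2 V))) → T (s.1 ∪ X, s.2 ∪ Y)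

/-- The vertices joined to the root by Maker's edges. -/
def cluster (v₀ : V) (M : Finset (Sym2 V)) : Set V :=
  {w | (SimpleGraph.fromEdgeSet (M : Set (Sym2 V))).Reachable v₀ w}

lemma cluster_mono (v₀ : V) {M M' : Finset (Sym2 V)} (h : M ⊆ M') :
    cluster v₀ M ⊆ cluster v₀ M' := by
  intro w hw
  exact SimpleGraph.Reachable.mono (SimpleGraph.fromEdgeSet_mono (by exact_mod_cast h)) hw

lemma cluster_subset_comp {G : SimpleGraph V} (v₀ : V) {M B : Finset (Sym2 V)}
    (hM : (M : Set (Sym2 V)) ⊆ G.edgeSet) (hMB : Disjoint (M : Set (Sym2 V)) (B : Set (Sym2 V))) :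
    cluster v₀ M ⊆ {w | (G.deleteEdges (B : Set (Sym2 V))).Reachable v₀ w} := by
  intro w hw
  refine SimpleGraph.Reachable.mono ?_ hw
  intro a b hab
  rw [SimpleGraph.fromEdgeSet_adj] at hab
  rw [SimpleGraph.deleteEdges_adj]
  exact ⟨hM hab.1, Set.disjoint_left.1 hMB hab.1⟩

open Classical in
/-- **Criterion for Maker.** If there is a set `I` of positions containing the initial position in
which Maker can stay for ever, joining at least one new vertex to the root in each round, then she
wins. -/
theorem makerWins_of_closed (G : SimpleGraph V) (hE : G.edgeSet.Infinite) (v₀ : V) (p q : ℕ)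
    (I : Finset (Sym2 V) × Finset (Sym2 V) → Prop) (h0 : I (∅, ∅))
    (hstep : ∀ s, I s → Round G p q s
      (fun t => I t ∧ ∃ w, w ∈ cluster v₀ t.1 ∧ w ∉ cluster v₀ s.1)) :
    Pool.Agent.Helper30.Perc.MakerWins G v₀ p q := by
  -- invariant: the position is legal, in `I`, and `k + 1` vertices are joined to the root
  let P : ℕ → Finset (Sym2 V) → Finset (Sym2 V) → Prop := fun k M B =>
    I (M, B) ∧ (M : Set (Sym2 V)) ⊆ G.edgeSet ∧
      Disjoint (M : Set (Sym2 V)) (B : Set (Sym2 V)) ∧
      ∃ U : Finset V, (U : Set V) ⊆ cluster v₀ M ∧ k ≤ U.card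
  have hs : ∀ k M B, P k M B → ∃ X : Finset (Sym2 V), X.card = p ∧
      (X : Set (Sym2 V)) ⊆ G.edgeSet ∧ Disjoint (X : Set (Sym2 V)) ((M : Set (Sym2 V)) ∪ B) ∧
      ∀ M' B' Y : Finset (Sym2 V), (M' : Set (Sym2 V)) = (M : Set (Sym2 V)) ∪ (X : Set (Sym2 V)) →
        (B' : Set (Sym2 V)) = (B : Set (Sym2 V)) ∪ (Y : Set (Sym2 V)) →
        Y.card = q → (Y : Set (Sym2 V)) ⊆ G.edgeSet →
        Disjoint (Y : Set (Sym2 V)) ((M' : Set (Sym2 V)) ∪ B) → P (k + 1) M' B' := by
    rintro k M B ⟨hI, hME, hMB, U, hU, hUk⟩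
    obtain ⟨X, hXp, hXE, hXd, hX⟩ := hstep _ hI
    refine ⟨X, hXp, hXE, hXd, ?_⟩
    intro M' B' Y hM' hB' hY hYE hYd
    have eM : M' = M ∪ X := by
      apply Finset.coe_injective; rw [hM', Finset.coe_union]
    have eB : B' = B ∪ Y := by
      apply Finset.coe_injective; rw [hB', Finset.coe_union]
    subst eM; subst eB
    obtain ⟨hI', w, hw, hw'⟩ := hX Y hY hYE hYd
    refine ⟨hI', ?_, ?_, insert w U, ?_, ?_⟩
    · rw [Finset.coe_union]; exact Set.union_subset hME hXE
    · rw [Finset.coe_union B Y, Set.disjoint_union_right]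
      refine ⟨?_, ?_⟩
      · rw [Finset.coe_union, Set.disjoint_union_left]
        refine ⟨hMB, ?_⟩
        rw [Set.disjoint_union_right] at hXd
        exact hXd.2
      · rw [Set.disjoint_union_right] at hYd
        exact hYd.1.symm
    · rw [Finset.coe_insert]
      refine Set.insert_subset hw ?_
      exact hU.trans (cluster_mono v₀ subset_union_left)
    · have : w ∉ U := fun h => hw' (hU (by exact_mod_cast h))
      rw [card_insert_of_notMem this]
      omega
  refine Pool.Agent.Helper30.Perc.makerWins_of_invariant G v₀ p q P ?_ hs ?_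
  · refine ⟨h0, by simp, by simp, ∅, by simp, by simp⟩
  · -- the component is infinite: otherwise play on
    intro k M B hP hfin
    have hgo : ∀ m, ∃ M' B', P (k + m) M' B' ∧ B ⊆ B' := by
      intro m
      induction m with
      | zero => exact ⟨M, B, hP, subset_rfl⟩
      | succ m ih =>
        obtain ⟨M', B', hP', hBB'⟩ := ih
        obtain ⟨X, hXp, hXE, hXd, hX⟩ := hs _ _ _ hP'
        obtain ⟨Y, -, hYq, hYE, hYd⟩ := Pool.Agent.Helper30.Perc.exists_move hE ∅
          (M' ∪ X ∪ B') q (by simp) (by simp) (by simp)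
        refine ⟨M' ∪ X, B' ∪ Y, hX _ _ Y (Finset.coe_union _ _) (Finset.coe_union _ _) hYq hYE ?_,
          hBB'.trans subset_union_left⟩
        rw [← Finset.coe_union]
        exact hYd
    obtain ⟨M', B', ⟨-, hME, hMB, U, hU, hUk⟩, hBB'⟩ := hgo (hfin.toFinset.card + 1)
    have hsub : U ⊆ hfin.toFinset := by
      intro u hu
      rw [Set.Finite.mem_toFinset]
      have h1 := cluster_subset_comp v₀ hME hMB (hU (by exact_mod_cast hu))
      exact SimpleGraph.Reachable.mono (SimpleGraph.deleteEdges_anti (by exact_mod_cast hBB')) h1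
    have := card_le_card hsub
    omega

end Pool.Agent.Perc
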