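import Pool.Agent.Helper68.Perc.Bdry

/-!
Growth of the set of vertices that can be reached at bounded cost.
-/

namespace Pool.Agent.Perc

open Finset

variable {V : Type} [DecidableEq V] {G : SimpleGraph V} [G.LocallyFinite]

/-- The endpoints of the edges in a finite set. -/
def verts (M : Finset (Sym2 V)) : Finset V := M.biUnion fun e => e.toFinset

lemma mem_verts {M : Finset (Sym2 V)} {x : V} : x ∈ verts M ↔ ∃ y, s(x, y) ∈ M := by
  unfold verts
  rw [mem_biUnion]
  constructor
  · rintro ⟨e, he, hx⟩
    rw [Sym2.mem_toFinset] at hx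
    obtain ⟨y, rfl⟩ := hx
    exact ⟨y, he⟩
  · rintro ⟨y, hy⟩
    exact ⟨s(x, y), hy, by rw [Sym2.mem_toFinset]; exact Sym2.mem_mk_left x y⟩

lemma card_verts_le (M : Finset (Sym2 V)) : (verts M).card ≤ 2 * M.card := by
  unfold verts
  calc (M.biUnion fun e => e.toFinset).card ≤ ∑ e ∈ M, e.toFinset.card := card_biUnion_le
    _ ≤ ∑ _e ∈ M, 2 := by
        apply sum_le_sum
        intro e _
        induction e using Sym2.ind with
        | _ x y =>
          rw [Sym2.toFinset_mk_eq]
          exact card_le_two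
    _ = 2 * M.card := by rw [sum_const, smul_eq_mul, mul_comm]

/-- `x` forces `y` through `M`: every finite set containing `x` with no boundary edge in `M`
contains `y`. -/
def Forces (G : SimpleGraph V) [G.LocallyFinite] (M : Finset (Sym2 V)) (x y : V) : Prop :=
  ∀ W : Finset V, x ∈ W → Disjoint (bdry G W) M → y ∈ W

lemma Forces.trans {M M' : Finset (Sym2 V)} {x y z : V} (h : Forces G M x y)
    (h' : Forces G M' y z) (hM : M' ⊆ M) : Forces G M x z :=
  fun W hx hd => h' W (h W hx hd) (hd.mono_right hM)

lemma forces_edge {M : Finset (Sym2 V)} {x y : V} (hxy : G.Adj x y) (h : s(x, y) ∈ M) :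
    Forces G M x y := by
  intro W hx hd
  by_contra hy
  exact (disjoint_left.mp hd) (mem_bdry.mpr ⟨hxy, Or.inl ⟨hx, hy⟩⟩) h

open Classical in
/-- Closure of a finite vertex set under the edges of `M`. -/
noncomputable def clo (G : SimpleGraph V) [G.LocallyFinite] (M : Finset (Sym2 V)) (X : Finset V) :
    Finset V :=
  X ∪ (verts M).filter fun y => ∃ x ∈ X, Forces G M x y

lemma subset_clo (M : Finset (Sym2 V)) (X : Finset V) : X ⊆ clo G M X := subset_union_left

lemma mem_clo {M : Finset (Sym2 V)} {X : Finset V} {y : V} (hy : y ∈ clo G M X) :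
    ∃ x ∈ X, Forces G M x y := by
  classical
  unfold clo at hy
  rw [mem_union, mem_filter] at hy
  rcases hy with h | ⟨_, h⟩
  · exact ⟨y, h, fun W hW _ => hW⟩
  · exact h

lemma clo_admissible (M : Finset (Sym2 V)) (X : Finset V) :
    Disjoint (bdry G (clo G M X)) M := by
  classical
  have key : ∀ x y, G.Adj x y → s(x, y) ∈ M → x ∈ clo G M X → y ∈ clo G M X := by
    intro x y hxy hM hx
    obtain ⟨z, hz, hzx⟩ := mem_clo hx
    unfold clo
    rw [mem_union, mem_filter]
    right
    refine ⟨mem_verts.mpr ⟨x, by rw [Sym2.eq_swap]; exact hM⟩, z, hz, ?_⟩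
    exact hzx.trans (forces_edge hxy hM) (Subset.refl _)
  rw [disjoint_left]
  intro e
  induction e using Sym2.ind with
  | _ x y =>
    intro he hM
    rw [mem_bdry] at he
    obtain ⟨hxy, ⟨hx, hy⟩ | ⟨hy, hx⟩⟩ := he
    · exact hy (key x y hxy hM hx)
    · exact hx (key y x hxy.symm (by rw [Sym2.eq_swap]; exact hM) hy)

/-- The endpoints reached from `X` through edges outside `B`. -/
def step (G : SimpleGraph V) [G.LocallyFinite] (B : Finset (Sym2 V)) (X : Finset V) : Finset V :=
  X ∪ X.biUnion fun x => (G.neighborFinset x).filter fun y => s(x, y) ∉ B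

/-- Vertices reachable from `v` at cost at most `j`. -/
noncomputable def reach (G : SimpleGraph V) [G.LocallyFinite] (M B : Finset (Sym2 V)) (v : V) :
    ℕ → Finset V
  | 0 => clo G M {v}
  | j + 1 => clo G M (step G B (reach G M B v j))

lemma reach_admissible (M B : Finset (Sym2 V)) (v : V) (j : ℕ) :
    Disjoint (bdry G (reach G M B v j)) M := by
  cases j with
  | zero => exact clo_admissible M _
  | succ j => exact clo_admissible M _

lemma mem_reach_self (M B : Finset (Sym2 V)) (v : V) (j : ℕ) : v ∈ reach G M B v j := by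
  induction j with
  | zero => exact subset_clo M _ (mem_singleton_self v)
  | succ j ih => exact subset_clo M _ (mem_union_left _ ih)

/-- Every vertex of `reach j` can be forced by at most `j` edges outside `B`. -/
lemma exists_forcing (M B : Finset (Sym2 V)) (v : V) (j : ℕ) :
    ∀ x ∈ reach G M B v j, ∃ E : Finset (Sym2 V), E.card ≤ j ∧
      ((E : Finset (Sym2 V)) : Set (Sym2 V)) ⊆ G.edgeSet ∧ Disjoint E B ∧
      Forces G (M ∪ E) v x := by
  induction j with
  | zero =>
    intro x hx
    obtain ⟨z, hz, hzx⟩ := mem_clo hx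
    rw [mem_singleton] at hz
    subst hz
    refine ⟨∅, by simp, by simp, by simp, ?_⟩
    rw [union_empty]
    exact hzx
  | succ j ih =>
    intro x hx
    obtain ⟨z, hz, hzx⟩ := mem_clo hx
    rw [step, mem_union, mem_biUnion] at hz
    rcases hz with hz | ⟨w, hw, hz⟩
    · obtain ⟨E, h1, h2, h3, h4⟩ := ih z hz
      exact ⟨E, by omega, h2, h3, h4.trans hzx subset_union_left⟩
    · rw [mem_filter, SimpleGraph.mem_neighborFinset] at hz
      obtain ⟨E, h1, h2, h3, h4⟩ := ih w hw
      refine ⟨insert s(w, z) E, ?_, ?_, ?_, ?_⟩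
      · exact (card_insert_le _ _).trans (by omega)
      · rw [coe_insert]
        exact Set.insert_subset hz.1 h2
      · rw [disjoint_insert_left]
        exact ⟨hz.2, h3⟩
      · have h5 : Forces G (M ∪ insert s(w, z) E) v w :=
          fun W hv hd => h4 W hv (hd.mono_right (union_subset_union (Subset.refl _)
            (subset_insert _ _)))
        have h6 : Forces G (M ∪ insert s(w, z) E) w z :=
          forces_edge hz.1 (mem_union_right _ (mem_insert_self _ _))
        exact (h5.trans h6 (Subset.refl _)).trans hzx subset_union_left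

/-- Each step adds many vertices. -/
lemma growth_step {D : ℕ} (hD : ∀ v, G.degree v ≤ D) (M B : Finset (Sym2 V)) (v : V) (j : ℕ) :
    D * (reach G M B v j).card + (bdry G (reach G M B v j) \ B).card ≤
      D * (reach G M B v (j + 1)).card := by
  set N := reach G M B v j with hN
  set N' := reach G M B v (j + 1) with hN'
  have hsub : N ⊆ N' := (subset_union_left).trans (subset_clo M _)
  have hstep : step G B N ⊆ N' := subset_clo M _
  have h1 : bdry G N \ B ⊆ (N' \ N).biUnion fun y => (G.neighborFinset y).image fun x => s(y, x) := by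
    intro e
    induction e using Sym2.ind with
    | _ x y =>
      intro he
      rw [mem_sdiff, mem_bdry] at he
      obtain ⟨⟨hxy, h1⟩, hB⟩ := he
      rw [mem_biUnion]
      rcases h1 with ⟨hx, hy⟩ | ⟨hy, hx⟩
      · refine ⟨y, ?_, ?_⟩
        · rw [mem_sdiff]
          refine ⟨hstep ?_, hy⟩
          rw [step, mem_union, mem_biUnion]
          right
          exact ⟨x, hx, by rw [mem_filter, SimpleGraph.mem_neighborFinset]; exact ⟨hxy, hB⟩⟩
        · rw [mem_image]
          exact ⟨x, (SimpleGraph.mem_neighborFinset _ _ _).mpr hxy.symm, Sym2.eq_swap⟩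
      · refine ⟨x, ?_, ?_⟩
        · rw [mem_sdiff]
          refine ⟨hstep ?_, hx⟩
          rw [step, mem_union, mem_biUnion]
          right
          refine ⟨y, hy, ?_⟩
          rw [mem_filter, SimpleGraph.mem_neighborFinset]
          exact ⟨hxy.symm, by rw [Sym2.eq_swap]; exact hB⟩
        · rw [mem_image]
          exact ⟨y, (SimpleGraph.mem_neighborFinset _ _ _).mpr hxy, rfl⟩
  have h2 : (bdry G N \ B).card ≤ D * (N' \ N).card := by
    calc (bdry G N \ B).card ≤ _ := card_le_card h1
      _ ≤ ∑ y ∈ N' \ N, ((G.neighborFinset y).image fun x => s(y, x)).card := card_biUnion_le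
      _ ≤ ∑ _y ∈ N' \ N, D := by
          apply sum_le_sum
          intro y _
          refine card_image_le.trans ?_
          rw [SimpleGraph.card_neighborFinset_eq_degree]
          exact hD y
      _ = D * (N' \ N).card := by rw [sum_const, smul_eq_mul, mul_comm]
  have h3 : (N' \ N).card + N.card = N'.card := card_sdiff_add_card_eq_card hsub
  calc D * N.card + (bdry G N \ B).card ≤ D * N.card + D * (N' \ N).card := by omega
    _ = D * N'.card := by rw [← h3]; ring

/-- Numerical growth lemma. -/
lemma numeric_growth {D h A : ℝ} (hD : 0 < D) (hh : 0 < h) (hA : 0 < A) :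
    ∃ j₁ : ℕ, ∀ (a : ℕ → ℝ) (c b : ℝ), 0 ≤ c → b ≤ A * c → 0 ≤ a 0 →
      (∀ j, a j + c / D ≤ a (j + 1)) → (∀ j, a j + (h * a j - b) / D ≤ a (j + 1)) →
      ∀ j : ℕ, (1 + h / (2 * D)) ^ j * (2 * A / h * c) ≤ a (j₁ + j) := by
  obtain ⟨j₁, hj₁⟩ := exists_nat_gt (2 * A * D / h)
  refine ⟨j₁, ?_⟩
  intro a c b hc hb ha0 hlin hexp j
  have h1 : ∀ i : ℕ, i * (c / D) ≤ a i := by
    intro i
    induction i with
    | zero => simpa using ha0
    | succ i ih =>
      have := hlin i
      push_cast
      linarith
  induction j with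
  | zero =>
    rw [pow_zero, one_mul, add_zero]
    refine le_trans ?_ (h1 j₁)
    have h2 : 2 * A / h * c = (2 * A * D / h) * (c / D) := by field_simp
    rw [h2]
    exact mul_le_mul_of_nonneg_right hj₁.le (by positivity)
  | succ j ih =>
    have h3 := hexp (j₁ + j)
    have h4 : 2 * A / h * c ≤ a (j₁ + j) := by
      refine le_trans ?_ ih
      have h5 : 1 ≤ (1 + h / (2 * D)) ^ j := one_le_pow₀ (by
        have : 0 < h / (2 * D) := by positivity
        linarith)
      have h6 : 0 ≤ 2 * A / h * c := by positivity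
      nlinarith
    have h5 : 2 * b ≤ h * a (j₁ + j) := by
      have h6 : h * (2 * A / h * c) ≤ h * a (j₁ + j) := mul_le_mul_of_nonneg_left h4 hh.le
      have h7 : h * (2 * A / h * c) = 2 * (A * c) := by field_simp
      linarith
    have h6 : a (j₁ + j) * (h / (2 * D)) ≤ (h * a (j₁ + j) - b) / D := by
      rw [le_div_iff₀ hD]
      have h7 : a (j₁ + j) * (h / (2 * D)) * D = h * a (j₁ + j) / 2 := by field_simp
      rw [h7]
      linarith
    calc (1 + h / (2 * D)) ^ (j + 1) * (2 * A / h * c)
        = (1 + h / (2 * D)) * ((1 + h / (2 * D)) ^ j * (2 * A / h * c)) := by ring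
      _ ≤ (1 + h / (2 * D)) * a (j₁ + j) := by
          apply mul_le_mul_of_nonneg_left ih
          positivity
      _ = a (j₁ + j) + a (j₁ + j) * (h / (2 * D)) := by ring
      _ ≤ a (j₁ + j) + (h * a (j₁ + j) - b) / D := by linarith
      _ ≤ a (j₁ + j + 1) := h3
      _ = a (j₁ + (j + 1)) := by rw [add_assoc]

/-- The reachable set is large after `j₁ + j` steps. -/
lemma reach_large {D : ℕ} (hD0 : 0 < D) (hD : ∀ v, G.degree v ≤ D) {h A : ℝ} (hh : 0 < h)
    (hA : 0 < A) (hiso : ∀ W : Finset V, h * W.card ≤ (bdry G W).card) :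
    ∃ j₁ : ℕ, ∀ (M B : Finset (Sym2 V)) (v : V) (c : ℝ), 0 ≤ c → Cap G v M B c →
      (B.card : ℝ) ≤ A * c → ∀ j : ℕ,
        (1 + h / (2 * D)) ^ j * (2 * A / h * c) ≤ ((reach G M B v (j₁ + j)).card : ℝ) := by
  have hDr : (0 : ℝ) < D := by exact_mod_cast hD0
  obtain ⟨j₁, hj₁⟩ := numeric_growth hDr hh hA
  refine ⟨j₁, ?_⟩
  intro M B v c hc hcap hB j
  have hg : ∀ j, (D : ℝ) * ((reach G M B v j).card : ℝ)
      + ((bdry G (reach G M B v j) \ B).card : ℝ) ≤ D * ((reach G M B v (j + 1)).card : ℝ) := by
    intro j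
    exact_mod_cast growth_step hD M B v j
  refine hj₁ (fun j => ((reach G M B v j).card : ℝ)) c B.card hc hB (Nat.cast_nonneg _) ?_ ?_ j
  · intro j
    have h1 := hcap (reach G M B v j) (mem_reach_self M B v j) (reach_admissible M B v j)
    have h2 := hg j
    have h3 : c / D ≤ ((reach G M B v (j + 1)).card : ℝ) - ((reach G M B v j).card : ℝ) := by
      rw [div_le_iff₀ hDr]
      nlinarith
    linarith
  · intro j
    have h1 := hiso (reach G M B v j)
    have h2 := hg j
    have h3 : ((bdry G (reach G M B v j)).card : ℝ) ≤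
        ((bdry G (reach G M B v j) \ B).card : ℝ) + B.card := by
      have h4 : (bdry G (reach G M B v j)).card ≤ (bdry G (reach G M B v j) \ B).card + B.card := by
        have h5 : bdry G (reach G M B v j) ⊆ (bdry G (reach G M B v j) \ B) ∪ B := by
          intro e he
          rw [mem_union, mem_sdiff]
          by_cases h : e ∈ B
          · exact Or.inr h
          · exact Or.inl ⟨he, h⟩
        exact (card_le_card h5).trans (card_union_le _ _)
      exact_mod_cast h4
    have h4 : (h * ((reach G M B v j).card : ℝ) - B.card) / D ≤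
        ((reach G M B v (j + 1)).card : ℝ) - ((reach G M B v j).card : ℝ) := by
      rw [div_le_iff₀ hDr]
      nlinarith
    linarith

end Pool.Agent.Perc
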