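import Pool.Agent.Helper68.Perc.Growth

/-!
The key lemma: placing one translated block in fresh territory.
-/

namespace Pool.Agent.Perc

open Finset

variable {V : Type} [DecidableEq V] {G : SimpleGraph V} [G.LocallyFinite]
variable {Γ : Type} [Group Γ] [MulAction Γ V]

/-- Translate of a finite vertex set. -/
def tr (g : Γ) (W : Finset V) : Finset V := W.image fun x => g • x

/-- Translate of a finite edge set. -/
def trE (g : Γ) (M : Finset (Sym2 V)) : Finset (Sym2 V) := M.image (Sym2.map fun x => g • x)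

lemma mem_tr {g : Γ} {W : Finset V} {x : V} : x ∈ tr g W ↔ g⁻¹ • x ∈ W := by
  unfold tr
  rw [mem_image]
  constructor
  · rintro ⟨y, hy, rfl⟩
    rwa [inv_smul_smul]
  · intro h
    exact ⟨_, h, smul_inv_smul g x⟩

lemma mem_trE {g : Γ} {M : Finset (Sym2 V)} {x y : V} :
    s(x, y) ∈ trE g M ↔ s(g⁻¹ • x, g⁻¹ • y) ∈ M := by
  unfold trE
  rw [mem_image]
  constructor
  · rintro ⟨e, he, h⟩
    induction e using Sym2.ind with
    | _ a b =>
      rw [Sym2.map_mk, Sym2.eq_iff] at h
      rcases h with ⟨h1, h2⟩ | ⟨h1, h2⟩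
      · rw [← h1, ← h2, inv_smul_smul, inv_smul_smul]
        exact he
      · rw [← h1, ← h2, inv_smul_smul, inv_smul_smul, Sym2.eq_swap]
        exact he
  · intro h
    refine ⟨_, h, ?_⟩
    rw [Sym2.map_mk]
    simp

lemma card_trE_le (g : Γ) (M : Finset (Sym2 V)) : (trE g M).card ≤ M.card := card_image_le

lemma card_tr (g : Γ) (W : Finset V) : (tr g W).card = W.card :=
  card_image_of_injective _ (MulAction.injective g)

lemma trE_subset (hadj : ∀ (g : Γ) (x y : V), G.Adj (g • x) (g • y) ↔ G.Adj x y) (g : Γ)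
    {M : Finset (Sym2 V)} (hM : ((M : Finset (Sym2 V)) : Set (Sym2 V)) ⊆ G.edgeSet) :
    ((trE g M : Finset (Sym2 V)) : Set (Sym2 V)) ⊆ G.edgeSet := by
  intro e
  induction e using Sym2.ind with
  | _ x y =>
    intro he
    rw [mem_coe, mem_trE] at he
    have h1 : G.Adj (g⁻¹ • x) (g⁻¹ • y) := hM he
    exact (hadj g⁻¹ x y).mp h1

lemma Cap.translate (hadj : ∀ (g : Γ) (x y : V), G.Adj (g • x) (g • y) ↔ G.Adj x y) (g : Γ)
    {v : V} {M : Finset (Sym2 V)} {c : ℝ} (h : Cap G v M ∅ c) :
    Cap G (g • v) (trE g M) ∅ c := by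
  intro W hv hd
  have h1 : v ∈ tr g⁻¹ W := by
    rw [mem_tr, inv_inv]; exact hv
  have hb : ∀ x y : V, s(x, y) ∈ bdry G (tr g⁻¹ W) ↔ s(g • x, g • y) ∈ bdry G W := by
    intro x y
    rw [mem_bdry, mem_bdry, mem_tr, mem_tr, inv_inv, hadj]
  have h2 : Disjoint (bdry G (tr g⁻¹ W)) M := by
    rw [disjoint_left]
    intro e
    induction e using Sym2.ind with
    | _ x y =>
      intro he hM
      rw [hb] at he
      refine (disjoint_left.mp hd) he ?_
      rw [mem_trE, inv_smul_smul, inv_smul_smul]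
      exact hM
  have h3 := h _ h1 h2
  refine h3.trans ?_
  rw [sdiff_empty, sdiff_empty]
  have h4 : (bdry G (tr g⁻¹ W)).card ≤ (bdry G W).card := by
    apply card_le_card_of_injOn (Sym2.map fun x => g • x)
    · intro e
      induction e using Sym2.ind with
      | _ x y =>
        intro he
        rw [mem_coe] at he ⊢
        rw [Sym2.map_mk]
        exact (hb x y).mp he
    · exact (Sym2.map.injective (MulAction.injective g)).injOn
  exact_mod_cast h4

/-- Closed neighbourhood. -/
def nb (G : SimpleGraph V) [G.LocallyFinite] (X : Finset V) : Finset V :=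
  X ∪ X.biUnion fun x => G.neighborFinset x

lemma subset_nb (X : Finset V) : X ⊆ nb G X := subset_union_left

lemma card_nb_le {D : ℕ} (hD : ∀ v, G.degree v ≤ D) (X : Finset V) :
    (nb G X).card ≤ (1 + D) * X.card := by
  unfold nb
  calc (X ∪ X.biUnion fun x => G.neighborFinset x).card
      ≤ X.card + (X.biUnion fun x => G.neighborFinset x).card := card_union_le _ _
    _ ≤ X.card + ∑ x ∈ X, (G.neighborFinset x).card := Nat.add_le_add_left card_biUnion_le _
    _ ≤ X.card + ∑ _x ∈ X, D := by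
        apply Nat.add_le_add_left
        apply sum_le_sum
        intro x _
        rw [SimpleGraph.card_neighborFinset_eq_degree]
        exact hD x
    _ = (1 + D) * X.card := by rw [sum_const, smul_eq_mul]; ring

lemma card_nb_iter_le {D : ℕ} (hD : ∀ v, G.degree v ≤ D) (X : Finset V) (i : ℕ) :
    ((nb G)^[i] X).card ≤ (1 + D) ^ i * X.card := by
  induction i with
  | zero => simp
  | succ i ih =>
    rw [Function.iterate_succ_apply']
    calc (nb G ((nb G)^[i] X)).card ≤ (1 + D) * ((nb G)^[i] X).card := card_nb_le hD _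
      _ ≤ (1 + D) * ((1 + D) ^ i * X.card) := Nat.mul_le_mul_left _ ih
      _ = (1 + D) ^ (i + 1) * X.card := by ring

lemma nb_iter_mono (X : Finset V) {i j : ℕ} (hij : i ≤ j) : (nb G)^[i] X ⊆ (nb G)^[j] X := by
  induction j, hij using Nat.le_induction with
  | base => exact Subset.refl _
  | succ j _ ih =>
    rw [Function.iterate_succ_apply']
    exact ih.trans (subset_nb _)

/-- Local analysis of a bad set at one translate. -/
lemma bad_set_fat {D : ℕ} (hD : ∀ v, G.degree v ≤ D)
    (hadj : ∀ (g : Γ) (x y : V), G.Adj (g • x) (g • y) ↔ G.Adj x y)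
    {v o : V} {M B Ms : Finset (Sym2 V)} {c m t : ℝ} {r : ℕ} {Vs : Finset V}
    (hcap : Cap G v M B c) (hblock : Cap G o Ms ∅ m) (ho : o ∈ Vs) (hVs : verts Ms ⊆ Vs) (g : Γ)
    (hclear : ∀ x ∈ tr g ((nb G)^[r] Vs), x ∉ verts M ∧ x ∉ verts B ∧ x ≠ v)
    {W : Finset V} (hv : v ∈ W) (hx : g • o ∈ W) (hM : Disjoint (bdry G W) M)
    (hMs : Disjoint (bdry G W) (trE g Ms)) (hcut : ((bdry G W \ B).card : ℝ) < c + (m - 2 * t)) :
    r * t ≤ D * ((W ∩ tr g ((nb G)^[r] Vs)).card : ℝ) := by
  have key : ∀ i < r, t ≤ D * (((W ∩ tr g ((nb G)^[i + 1] Vs)).card : ℝ)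
      - ((W ∩ tr g ((nb G)^[i] Vs)).card : ℝ)) := by
    intro i hi
    set N := tr g ((nb G)^[i] Vs) with hN
    set N' := tr g ((nb G)^[i + 1] Vs) with hN'
    have hNr : N ⊆ tr g ((nb G)^[r] Vs) := image_subset_image (nb_iter_mono Vs hi.le)
    have hNN' : N ⊆ N' := image_subset_image (nb_iter_mono Vs (Nat.le_succ i))
    have hV0 : tr g Vs ⊆ N := image_subset_image (nb_iter_mono Vs (Nat.zero_le i))
    set U := W ∩ N with hU
    set R := W \ N with hR
    have hUR : Disjoint U R := by
      rw [disjoint_left]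
      intro x hxU hxR
      exact (mem_sdiff.mp hxR).2 (mem_inter.mp hxU).2
    have hun : U ∪ R = W := by
      ext x
      rw [hU, hR, mem_union, mem_inter, mem_sdiff]
      tauto
    have hvR : v ∈ R := by
      rw [hR, mem_sdiff]
      exact ⟨hv, fun h => (hclear v (hNr h)).2.2 rfl⟩
    have hRM : Disjoint (bdry G R) M := by
      have aux : ∀ a b, G.Adj a b → s(a, b) ∈ M → a ∈ R → b ∉ R → False := by
        intro a b hab hM' ha hb
        have hbN : b ∉ N := fun h =>
          (hclear b (hNr h)).1 (mem_verts.mpr ⟨a, by rw [Sym2.eq_swap]; exact hM'⟩)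
        have hbW : b ∉ W := fun h => hb (mem_sdiff.mpr ⟨h, hbN⟩)
        exact (disjoint_left.mp hM) (mem_bdry.mpr ⟨hab, Or.inl ⟨(mem_sdiff.mp ha).1, hbW⟩⟩) hM'
      rw [disjoint_left]
      intro e
      induction e using Sym2.ind with
      | _ a b =>
        intro he hM'
        rw [mem_bdry] at he
        obtain ⟨hab, ⟨ha, hb⟩ | ⟨hb, ha⟩⟩ := he
        · exact aux a b hab hM' ha hb
        · exact aux b a hab.symm (by rw [Sym2.eq_swap]; exact hM') hb ha
    have hUMs : Disjoint (bdry G U) (trE g Ms) := by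
      have aux : ∀ a b, G.Adj a b → s(a, b) ∈ trE g Ms → a ∈ U → b ∉ U → False := by
        intro a b hab hM' ha hb
        have hbN : b ∈ N := by
          apply hV0
          rw [mem_tr]
          apply hVs
          rw [mem_trE] at hM'
          exact mem_verts.mpr ⟨_, by rw [Sym2.eq_swap]; exact hM'⟩
        have hbW : b ∉ W := fun h => hb (mem_inter.mpr ⟨h, hbN⟩)
        exact (disjoint_left.mp hMs) (mem_bdry.mpr ⟨hab, Or.inl ⟨(mem_inter.mp ha).1, hbW⟩⟩) hM'
      rw [disjoint_left]
      intro e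
      induction e using Sym2.ind with
      | _ a b =>
        intro he hM'
        rw [mem_bdry] at he
        obtain ⟨hab, ⟨ha, hb⟩ | ⟨hb, ha⟩⟩ := he
        · exact aux a b hab hM' ha hb
        · exact aux b a hab.symm (by rw [Sym2.eq_swap]; exact hM') hb ha
    have hgoU : g • o ∈ U := by
      rw [hU, mem_inter]
      refine ⟨hx, hV0 ?_⟩
      rw [mem_tr, inv_smul_smul]
      exact ho
    have hUB : bdry G U \ B = bdry G U := by
      rw [Finset.sdiff_eq_self_iff_disjoint, disjoint_left]
      intro e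
      induction e using Sym2.ind with
      | _ a b =>
        intro he hB
        rw [mem_bdry] at he
        obtain ⟨hab, ⟨ha, hb⟩ | ⟨hb, ha⟩⟩ := he
        · exact (hclear a (hNr (mem_inter.mp ha).2)).2.1 (mem_verts.mpr ⟨b, hB⟩)
        · exact (hclear b (hNr (mem_inter.mp hb).2)).2.1
            (mem_verts.mpr ⟨a, by rw [Sym2.eq_swap]; exact hB⟩)
    have h1 : m ≤ ((bdry G U \ B).card : ℝ) := by
      have := hblock.translate hadj g U hgoU hUMs
      rw [sdiff_empty] at this
      rw [hUB]
      exact this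
    have h2 : c ≤ ((bdry G R \ B).card : ℝ) := hcap R hvR hRM
    have h3 := cut_split (G := G) B hUR
    rw [hun] at h3
    have h3' : ((bdry G U \ B).card : ℝ) + ((bdry G R \ B).card : ℝ) ≤
        ((bdry G W \ B).card : ℝ) + 2 * ((bdry G U ∩ bdry G R).card : ℝ) := by
      exact_mod_cast h3
    set T := (W ∩ N') \ (W ∩ N) with hT
    have h4 : (bdry G U ∩ bdry G R).card ≤ D * T.card := by
      apply card_between_le hD hUR
      intro x hxU y hyR hxy
      rw [hT, mem_sdiff, mem_inter, mem_inter]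
      have hyW := (mem_sdiff.mp hyR).1
      have hyN := (mem_sdiff.mp hyR).2
      refine ⟨⟨hyW, ?_⟩, fun h => hyN h.2⟩
      rw [hN', mem_tr, Function.iterate_succ_apply', nb, mem_union, mem_biUnion]
      right
      refine ⟨g⁻¹ • x, ?_, ?_⟩
      · have := (mem_inter.mp hxU).2
        rwa [hN, mem_tr] at this
      · rw [SimpleGraph.mem_neighborFinset]
        exact (hadj g⁻¹ x y).mpr hxy
    have h4' : ((bdry G U ∩ bdry G R).card : ℝ) ≤ D * (T.card : ℝ) := by exact_mod_cast h4
    have h5 : T.card + (W ∩ N).card = (W ∩ N').card :=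
      card_sdiff_add_card_eq_card (inter_subset_inter_left hNN')
    have h5' : (T.card : ℝ) + ((W ∩ N).card : ℝ) = ((W ∩ N').card : ℝ) := by exact_mod_cast h5
    have h6 : ((W ∩ N').card : ℝ) - ((W ∩ N).card : ℝ) = T.card := by linarith
    rw [h6]
    linarith
  have hsum : ∀ j ≤ r, j * t ≤ D * (((W ∩ tr g ((nb G)^[j] Vs)).card : ℝ)
      - ((W ∩ tr g ((nb G)^[0] Vs)).card : ℝ)) := by
    intro j hj
    induction j with
    | zero => simp
    | succ j ih =>
      have h1 := ih (by omega)
      have h2 := key j (by omega)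
      push_cast
      linarith
  have h1 := hsum r le_rfl
  have h2 : (0 : ℝ) ≤ D * ((W ∩ tr g ((nb G)^[0] Vs)).card : ℝ) := by positivity
  linarith

/-- Number of base points whose translate meets a given set. -/
lemma card_meet_le {k₀ : ℕ} {o : V} {tg : V → Γ} (htg : ∀ x, tg x • o = x)
    (hstab : ∀ x y : V, {g : Γ | g • x = y}.Finite ∧ {g : Γ | g • x = y}.ncard ≤ k₀)
    (X N Z : Finset V) :
    (X.filter fun x => ¬ Disjoint (tr (tg x) N) Z).card ≤ k₀ * (N.card * Z.card) := by
  classical
  have hinj : Function.Injective tg := by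
    intro x y hxy
    rw [← htg x, ← htg y, hxy]
  have hsub : (X.filter fun x => ¬ Disjoint (tr (tg x) N) Z) ⊆
      (N ×ˢ Z).biUnion fun q => X.filter fun x => tg x • q.1 = q.2 := by
    intro x hx
    rw [mem_filter, disjoint_left] at hx
    push Not at hx
    obtain ⟨hxX, y, hy, hyZ⟩ := hx
    unfold tr at hy
    rw [mem_image] at hy
    obtain ⟨z, hz, rfl⟩ := hy
    rw [mem_biUnion]
    exact ⟨(z, tg x • z), mem_product.mpr ⟨hz, hyZ⟩, mem_filter.mpr ⟨hxX, rfl⟩⟩
  have hone : ∀ q : V × V, (X.filter fun x => tg x • q.1 = q.2).card ≤ k₀ := by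
    intro q
    obtain ⟨hf, hc⟩ := hstab q.1 q.2
    refine le_trans ?_ hc
    rw [← Set.ncard_coe_finset]
    rw [← Set.ncard_image_of_injective _ hinj]
    apply Set.ncard_le_ncard _ hf
    rintro g ⟨x, hx, rfl⟩
    rw [mem_coe, mem_filter] at hx
    exact hx.2
  calc _ ≤ ((N ×ˢ Z).biUnion fun q => X.filter fun x => tg x • q.1 = q.2).card :=
        card_le_card hsub
    _ ≤ ∑ q ∈ N ×ˢ Z, (X.filter fun x => tg x • q.1 = q.2).card := card_biUnion_le
    _ ≤ ∑ _q ∈ N ×ˢ Z, k₀ := sum_le_sum fun q _ => hone q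
    _ = k₀ * (N.card * Z.card) := by rw [sum_const, card_product, smul_eq_mul, mul_comm]

/-- A large family of base points with disjoint translates. -/
lemma exists_disjoint_family {k₀ : ℕ} {o : V} {tg : V → Γ} (htg : ∀ x, tg x • o = x)
    (hstab : ∀ x y : V, {g : Γ | g • x = y}.Finite ∧ {g : Γ | g • x = y}.ncard ≤ k₀)
    (X N : Finset V) (hN : N.Nonempty) :
    ∃ I ⊆ X, (∀ x ∈ I, ∀ y ∈ I, x ≠ y → Disjoint (tr (tg x) N) (tr (tg y) N)) ∧
      X.card ≤ I.card * (k₀ * (N.card * N.card)) := by
  classical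
  -- a maximal family
  let P : Finset V → Prop := fun I => I ⊆ X ∧
    ∀ x ∈ I, ∀ y ∈ I, x ≠ y → Disjoint (tr (tg x) N) (tr (tg y) N)
  have hex : ∃ I ∈ X.powerset.filter P, ∀ I' ∈ X.powerset.filter P, I'.card ≤ I.card := by
    apply exists_max_image
    exact ⟨∅, mem_filter.mpr ⟨empty_mem_powerset _, empty_subset _, by simp⟩⟩
  obtain ⟨I, hI, hmax⟩ := hex
  rw [mem_filter, mem_powerset] at hI
  refine ⟨I, hI.1, hI.2.2, ?_⟩
  have hcover : X ⊆ I.biUnion fun y => X.filter fun x => ¬ Disjoint (tr (tg x) N) (tr (tg y) N) := by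
    intro x hx
    by_contra hcon
    rw [mem_biUnion] at hcon
    push Not at hcon
    have hdis : ∀ y ∈ I, Disjoint (tr (tg x) N) (tr (tg y) N) := by
      intro y hy
      have := hcon y hy
      rw [mem_filter] at this
      push Not at this
      exact this hx
    have hxI : x ∉ I := by
      intro hxI
      have h1 := hdis x hxI
      rw [disjoint_self_iff_empty] at h1
      unfold tr at h1
      rw [image_eq_empty] at h1
      exact hN.ne_empty h1
    have h2 : insert x I ∈ X.powerset.filter P := by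
      rw [mem_filter, mem_powerset]
      refine ⟨insert_subset hx hI.1, insert_subset hx hI.1, ?_⟩
      intro a ha b hb hab
      rw [mem_insert] at ha hb
      rcases ha with rfl | ha <;> rcases hb with rfl | hb
      · exact absurd rfl hab
      · exact hdis b hb
      · exact (hdis a ha).symm
      · exact hI.2.2 a ha b hb hab
    have h3 := hmax _ h2
    rw [card_insert_of_notMem hxI] at h3
    omega
  calc X.card ≤ _ := card_le_card hcover
    _ ≤ ∑ y ∈ I, (X.filter fun x => ¬ Disjoint (tr (tg x) N) (tr (tg y) N)).card :=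
        card_biUnion_le
    _ ≤ ∑ _y ∈ I, k₀ * (N.card * N.card) := by
        apply sum_le_sum
        intro y _
        have := card_meet_le htg hstab X N (tr (tg y) N)
        rwa [card_tr] at this
    _ = I.card * (k₀ * (N.card * N.card)) := by rw [sum_const, smul_eq_mul]

end Pool.Agent.Perc
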