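import Pool.Agent.Helper22.PG.Basic

/-!
Percolation games on graphs of subquadratic growth: Breaker wins with `o(p)` edges, because one of
the first `2 p` spheres carries few edges and is not touched by Maker's first move.
-/

namespace Pool.Agent.Helper22.PG

open Finset Filter Pool.Agent.Helper30.Perc

variable {V : Type} [DecidableEq V] {G : SimpleGraph V} [G.LocallyFinite]

/-- the smaller distance of the two end points of an edge to `w` -/
noncomputable def level (G : SimpleGraph V) (w : V) : Sym2 V → ℕ :=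
  Sym2.lift ⟨fun a b => min (G.dist w a) (G.dist w b), fun _ _ => min_comm _ _⟩

omit [DecidableEq V] [G.LocallyFinite] in
lemma level_mk (w a b : V) : level G w s(a, b) = min (G.dist w a) (G.dist w b) := rfl

lemma cut_bl_le (hconn : G.Connected) {d : ℕ} (hd : ∀ x, (G.neighborFinset x).card ≤ d) (w : V)
    {r R : ℕ} (hr : r < R) :
    cut G (bl G w r) ≤ d * ((bl G w R).filter fun a => G.dist w a = r).card := by
  unfold cut
  calc ∑ a ∈ bl G w r, (G.neighborFinset a \ bl G w r).card
      ≤ ∑ a ∈ bl G w r, (if G.dist w a = r then d else 0) := by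
        refine sum_le_sum fun a ha => ?_
        by_cases har : G.dist w a = r
        · rw [if_pos har]
          exact (card_le_card sdiff_subset).trans (hd a)
        · rw [if_neg har, Nat.le_zero, card_eq_zero, sdiff_eq_empty_iff_subset]
          intro b hb
          rw [SimpleGraph.mem_neighborFinset] at hb
          rw [mem_bl hconn] at ha ⊢
          have h3 := hconn.dist_triangle (u := w) (v := a) (w := b)
          have h4 : G.dist a b = 1 := SimpleGraph.dist_eq_one_iff_adj.2 hb
          omega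
    _ = d * ((bl G w r).filter fun a => G.dist w a = r).card := by
        rw [← sum_filter, sum_const, smul_eq_mul, mul_comm]
    _ ≤ _ := by
        refine Nat.mul_le_mul_left _ (card_le_card ?_)
        intro a ha
        rw [mem_filter] at ha ⊢
        exact ⟨bl_mono hconn w hr.le ha.1, ha.2⟩

lemma exists_ball_cut (hconn : G.Connected) {d : ℕ} (hd : ∀ x, (G.neighborFinset x).card ≤ d)
    (w : V) (X : Finset (Sym2 V)) (hX : (X : Set (Sym2 V)) ⊆ G.edgeSet) (R : ℕ)
    (hR : X.card < R) :
    ∃ r, Adm w X (bl G w r) ∧ (R - X.card) * cut G (bl G w r) ≤ d * (bl G w R).card := by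
  classical
  set bad : Finset ℕ := (range R).filter fun r => ¬ Adm w X (bl G w r) with hbad
  have hbadc : bad.card ≤ X.card := by
    refine (card_le_card ?_).trans (card_image_le (f := level G w) (s := X))
    intro r hr
    rw [hbad, mem_filter] at hr
    rw [mem_image]
    by_contra hcon
    push Not at hcon
    apply hr.2
    refine ⟨self_mem_bl w r, ?_⟩
    intro a b hab ha
    by_contra hb
    have hadj : G.Adj a b := by simpa using hX (mem_coe.2 hab)
    apply hcon _ hab
    rw [level_mk]
    rw [mem_bl hconn] at ha hb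
    have h3 := hconn.dist_triangle (u := w) (v := a) (w := b)
    have h4 : G.dist a b = 1 := SimpleGraph.dist_eq_one_iff_adj.2 hadj
    omega
  set good : Finset ℕ := range R \ bad with hgood
  have hgoodc : R - X.card ≤ good.card := by
    have h1 : bad ⊆ range R := filter_subset _ _
    rw [hgood, card_sdiff_of_subset h1, card_range]
    omega
  have hne : good.Nonempty := by
    rw [← card_pos]; omega
  obtain ⟨r, hr, hmin⟩ := exists_min_image good (fun r => cut G (bl G w r)) hne
  have hr' := hr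
  rw [hgood, Finset.mem_sdiff, hbad, mem_filter] at hr'
  refine ⟨r, by_contra fun h => hr'.2 ⟨hr'.1, h⟩, ?_⟩
  calc (R - X.card) * cut G (bl G w r) ≤ good.card * cut G (bl G w r) :=
        Nat.mul_le_mul_right _ hgoodc
    _ = ∑ _s ∈ good, cut G (bl G w r) := by rw [sum_const, smul_eq_mul]
    _ ≤ ∑ s ∈ good, cut G (bl G w s) := sum_le_sum fun s hs => hmin s hs
    _ ≤ ∑ s ∈ range R, cut G (bl G w s) := sum_le_sum_of_subset sdiff_subset
    _ ≤ ∑ s ∈ range R, d * ((bl G w R).filter fun a => G.dist w a = s).card :=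
        sum_le_sum fun s hs => cut_bl_le hconn hd w (mem_range.1 hs)
    _ = d * ∑ s ∈ range R, ((bl G w R).filter fun a => G.dist w a = s).card := by
        rw [mul_sum]
    _ ≤ d * (bl G w R).card := by
        refine Nat.mul_le_mul_left _ ?_
        rw [← card_biUnion]
        · refine card_le_card ?_
          intro a ha
          rw [mem_biUnion] at ha
          obtain ⟨s, -, ha⟩ := ha
          exact (mem_filter.1 ha).1
        · intro i _ j _ hij
          rw [Function.onFun, Finset.disjoint_left]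
          intro a ha ha'
          exact hij ((mem_filter.1 ha).2.symm.trans (mem_filter.1 ha').2)

theorem small_growth (hconn : G.Connected) (hE : G.edgeSet.Infinite) {d : ℕ}
    (hd : ∀ x, (G.neighborFinset x).card ≤ d) (D c₂ : ℝ) (hD : D < 2)
    (hgr : ∀ (w : V) (r : ℕ), 1 ≤ r → ((bl G w r).card : ℝ) ≤ c₂ * (r : ℝ) ^ D) :
    ∃ b : ℝ, 0 ≤ b ∧
      (∀ v₀ : V, Tendsto (fun p : ℕ => (maxCap G v₀ p : ℝ) / p) atTop (nhds b)) ∧
      ∀ ε : ℝ, 0 < ε → ∃ p₀ : ℕ, ∀ p q : ℕ, p₀ ≤ p → ∀ v₀ : V,
        ((b + ε) * (p : ℝ) < (q : ℝ) → BreakerWins G v₀ p q) ∧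
        ((q : ℝ) < (b - ε) * (p : ℝ) → MakerWins G v₀ p q) := by
  have key : ∀ ε : ℝ, 0 < ε → ∃ p₀ : ℕ, ∀ p : ℕ, p₀ ≤ p → ∀ (w : V) (X : Finset (Sym2 V)),
      X.card = p → (X : Set (Sym2 V)) ⊆ G.edgeSet →
        ∃ W : Finset V, Adm w X W ∧ (cut G W : ℝ) < ε * p := by
    intro ε hε
    have hlim : Tendsto (fun p : ℕ => (d * c₂ * 2 ^ D) * (p : ℝ) ^ (-(2 - D))) atTop (nhds 0) := by
      have h1 : Tendsto (fun x : ℝ => x ^ (-(2 - D))) atTop (nhds 0) :=
        tendsto_rpow_neg_atTop (by linarith)
      have h2 := (h1.comp tendsto_natCast_atTop_atTop).const_mul (d * c₂ * 2 ^ D)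
      rw [mul_zero] at h2
      exact h2
    obtain ⟨p₀, hp₀⟩ := eventually_atTop.1 (hlim.eventually_lt_const hε)
    refine ⟨p₀ + 1, fun p hp w X hXc hX => ?_⟩
    have hp1 : 1 ≤ p := by omega
    have hpR : (0 : ℝ) < p := by exact_mod_cast hp1
    obtain ⟨r, hadm, hr⟩ := exists_ball_cut hconn hd w X hX (2 * p) (by omega)
    refine ⟨_, hadm, ?_⟩
    have h1 : 2 * p - X.card = p := by omega
    rw [h1] at hr
    have h2 : (p : ℝ) * cut G (bl G w r) ≤ d * ((bl G w (2 * p)).card : ℝ) := by
      exact_mod_cast hr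
    have h3 := hgr w (2 * p) (by omega)
    have h4 : ((2 * p : ℕ) : ℝ) ^ D = 2 ^ D * (p : ℝ) ^ D := by
      push_cast
      exact Real.mul_rpow (by norm_num) (by positivity)
    rw [h4] at h3
    have h5 : (p : ℝ) ^ D = (p : ℝ) ^ (-(2 - D)) * (p * p) := by
      rw [← sq, ← Real.rpow_natCast, ← Real.rpow_add hpR]
      congr 1
      push_cast
      ring
    have h6 : (p : ℝ) * cut G (bl G w r) ≤ (d * c₂ * 2 ^ D * (p : ℝ) ^ (-(2 - D))) * (p * p) := by
      calc (p : ℝ) * cut G (bl G w r) ≤ d * ((bl G w (2 * p)).card : ℝ) := h2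
        _ ≤ d * (c₂ * (2 ^ D * (p : ℝ) ^ D)) := by gcongr
        _ = _ := by rw [h5]; ring
    have h7 : (d * c₂ * 2 ^ D * (p : ℝ) ^ (-(2 - D))) * (p * p) < ε * (p * p) :=
      mul_lt_mul_of_pos_right (hp₀ p (by omega)) (by positivity)
    have h8 : (p : ℝ) * cut G (bl G w r) < p * (ε * p) := by
      calc _ ≤ _ := h6
        _ < _ := h7
        _ = _ := by ring
    exact lt_of_mul_lt_mul_left h8 hpR.le
  refine ⟨0, le_rfl, ?_, ?_⟩
  · intro w
    rw [Metric.tendsto_atTop]
    intro ε hε
    obtain ⟨p₀, hp₀⟩ := key ε hε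
    refine ⟨p₀ + 1, fun p hp => ?_⟩
    have hpR : (0 : ℝ) < p := by
      have : 0 < p := by omega
      exact_mod_cast this
    have h1 : ¬ CapGE G w p (ε * p) := by
      rintro ⟨X, hX, hXc, hcap⟩
      obtain ⟨W, hW, hW'⟩ := hp₀ p (by omega) w X hXc hX
      exact absurd (hcap W hW) (not_le.2 hW')
    rw [capGE_iff G d hd hE, not_le] at h1
    rw [Real.dist_eq, sub_zero, abs_of_nonneg (by positivity), div_lt_iff₀ hpR]
    exact h1
  · intro ε hε
    obtain ⟨p₀, hp₀⟩ := key ε hε
    refine ⟨p₀, fun p q hp w => ⟨?_, ?_⟩⟩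
    · intro hq
      refine breakerWins_of_cut G hE w p q ?_
      intro X hX hXE
      obtain ⟨W, hW, hWc⟩ := hp₀ p hp w X hX hXE
      rw [zero_add] at hq
      refine ⟨W, bdE G W, hW.1, ?_, ?_, ?_, ?_⟩
      · rw [card_bdE]
        have : (cut G W : ℝ) < q := hWc.trans hq
        have : cut G W < q := by exact_mod_cast this
        exact this.le
      · intro e he
        rw [mem_coe, mem_bdE] at he
        obtain ⟨a, -, b, -, hab, rfl⟩ := he
        simpa using hab
      · rw [adm_iff G w X hXE, bdry_eq] at hW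
        exact hW.2
      · intro a ha b' hb' hab
        rw [mem_bdE]
        exact ⟨a, ha, b', hb', hab, rfl⟩
    · intro hq
      exfalso
      have h1 : (0 : ℝ) ≤ q := by positivity
      have h2 : (0 : ℝ) ≤ ε * p := by positivity
      linarith [hq]

end Pool.Agent.Helper22.PG
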