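import Pool.Agent.Helper68.Perc.ZGrowth
import Pool.Agent.Helper30.Perc.Main

/-!
The capacity of the best set of `p` edges in `ℤ^d` is `(2 d - 2) p + O(1)`.
-/

namespace Pool.Agent.Perc.Zd

open Finset Filter Pool.Agent.Helper30.Perc

variable {d : ℕ}

noncomputable instance : (zd d).LocallyFinite := fun x => (neighborSet_finite x).fintype

lemma bdE_covers (W : Finset (Fin d → ℤ)) :
    ∀ a ∈ W, ∀ b, b ∉ W → (zd d).Adj a b → s(a, b) ∈ bdE (zd d) W := by
  intro a ha b hb hab
  rw [mem_bdE]
  exact ⟨a, ha, b, hb, hab, rfl⟩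

/-- a straight path of `p` edges -/
lemma capGE_zd [NeZero d] (v : Fin d → ℤ) (p : ℕ) :
    CapGE (zd d) v p ((2 * d - 2) * p) := by
  classical
  set e : ℤ → (Fin d → ℤ) := fun k => v + Pi.single 0 k with he
  have heinj : Function.Injective e := by
    intro a b h
    have := congrFun h 0
    simpa [he] using this
  set M : Finset (Sym2 (Fin d → ℤ)) := (range p).image (fun k : ℕ => ed 0 (e (k : ℤ))) with hM
  have hstep : ∀ k : ℤ, e k + Pi.single 0 1 = e (k + 1) := by
    intro k
    simp only [he]
    rw [add_assoc, ← Pi.single_add]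
  refine ⟨M, ?_, ?_, ?_⟩
  · intro x hx
    rw [hM, coe_image] at hx
    obtain ⟨k, -, rfl⟩ := hx
    exact ed_mem _ _
  · rw [hM, card_image_of_injOn, card_range]
    intro a _ b _ h
    have := heinj (ed_inj h).2
    exact_mod_cast this
  · intro W hW
    have hin : ∀ k : ℕ, k ≤ p → e k ∈ W := by
      intro k
      induction k with
      | zero =>
        intro _
        have : e ((0 : ℕ) : ℤ) = v := by simp [he]
        rw [this]
        exact hW.1
      | succ k ih =>
        intro hk
        have h1 := ih (by omega)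
        push_cast
        rw [← hstep]
        refine hW.2 (e k) _ ?_ h1
        rw [hM, mem_image]
        exact ⟨k, mem_range.2 (by omega), rfl⟩
    set U : Finset (Fin d → ℤ) := (range (p + 1)).image (fun k : ℕ => e (k : ℤ)) with hU
    have hUc : U.card = p + 1 := by
      rw [hU, card_image_of_injective, card_range]
      intro a b h
      have := heinj h
      exact_mod_cast this
    have hUW : U ⊆ W := by
      intro x hx
      rw [hU, mem_image] at hx
      obtain ⟨k, hk, rfl⟩ := hx
      exact hin k (by have := mem_range.1 hk; omega)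
    have key := card_cut_ge (univ.erase (0 : Fin d)) U W hUW (by
      intro i hi x hx y hy hxy
      rw [hU, mem_image] at hx hy
      obtain ⟨k, -, rfl⟩ := hx
      obtain ⟨l, -, rfl⟩ := hy
      have h0 := hxy 0 (ne_of_mem_erase hi).symm
      have : (k : ℤ) = l := by simpa [he] using h0
      rw [this]) (bdE (zd d) W) (bdE_covers W)
    rw [card_bdE, hUc, card_erase_of_mem (mem_univ _), card_univ, Fintype.card_fin] at key
    have hd : 1 ≤ d := NeZero.one_le
    have key2 : (2 * ((d : ℝ) - 1)) * (p + 1) ≤ cut (zd d) W := by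
      have : ((2 * (d - 1) * (p + 1) : ℕ) : ℝ) ≤ ((cut (zd d) W : ℕ) : ℝ) := by
        exact_mod_cast key
      rw [Nat.cast_mul, Nat.cast_mul, Nat.cast_sub hd] at this
      push_cast at this
      exact this
    have hd' : (1 : ℝ) ≤ d := by exact_mod_cast hd
    nlinarith

lemma degree_bound (x : Fin d → ℤ) : ((zd d).neighborFinset x).card ≤ 2 * d := by
  classical
  have : (zd d).neighborFinset x ⊆ (univ.image fun i : Fin d => x + Pi.single i 1) ∪
      (univ.image fun i : Fin d => x - Pi.single i 1) := by
    intro y hy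
    rw [SimpleGraph.mem_neighborFinset] at hy
    obtain ⟨i, h | h⟩ := hy
    · exact mem_union_left _ (mem_image.2 ⟨i, mem_univ _, h.symm⟩)
    · exact mem_union_right _ (mem_image.2 ⟨i, mem_univ _, by rw [h]; simp⟩)
  refine (card_le_card this).trans ((card_union_le _ _).trans ?_)
  have h1 : (univ.image fun i : Fin d => x + Pi.single i (1 : ℤ)).card ≤ d := by
    refine card_image_le.trans ?_
    rw [card_univ, Fintype.card_fin]
  have h2 : (univ.image fun i : Fin d => x - Pi.single i (1 : ℤ)).card ≤ d := by
    refine card_image_le.trans ?_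
    rw [card_univ, Fintype.card_fin]
  omega

lemma maxCap_bounds [NeZero d] (v : Fin d → ℤ) (p : ℕ) :
    (2 * (d : ℝ) - 2) * p ≤ maxCap (zd d) v p ∧
      (maxCap (zd d) v p : ℝ) ≤ (2 * d - 2) * p + 2 * d := by
  classical
  have hiff := capGE_iff (zd d) (2 * d) degree_bound infinite_edgeSet v p
  constructor
  · exact (hiff _).1 (capGE_zd v p)
  · obtain ⟨M, hM, hMp, hcap⟩ := (hiff (maxCap (zd d) v p : ℝ)).2 le_rfl
    obtain ⟨W, C, h1, h2, h3, h4, h5⟩ := exists_small_cut v M hM
    have hadm : Adm v M W := by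
      refine ⟨h1, ?_⟩
      intro a b hab ha
      by_contra hb
      have hadj : (zd d).Adj a b := by simpa using hM (mem_coe.2 hab)
      exact Set.disjoint_left.1 h4 (mem_coe.2 (h5 a ha b hb hadj)) (mem_coe.2 hab)
    have h6 := hcap W hadm
    have h7 : cut (zd d) W ≤ C.card := by
      rw [← card_bdE]
      apply card_le_card
      intro e he
      rw [mem_bdE] at he
      obtain ⟨a, ha, b, hb, hab, rfl⟩ := he
      exact h5 a ha b hb hab
    rw [hMp] at h2
    have h8 : (cut (zd d) W : ℝ) ≤ C.card := by exact_mod_cast h7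
    have h9 : (C.card : ℝ) + 2 * p ≤ 2 * d * p + 2 * d := by exact_mod_cast h2
    have h10 : (2 * (d : ℝ) - 2) * p = 2 * d * p - 2 * p := by ring
    rw [h10]
    linarith

/-- the capacity per edge tends to `2 d - 2` -/
theorem tendsto_maxCap [NeZero d] (v : Fin d → ℤ) :
    Tendsto (fun p : ℕ => (maxCap (zd d) v p : ℝ) / p) atTop (nhds (2 * d - 2)) := by
  have h1 : Tendsto (fun p : ℕ => (2 * (d : ℝ) - 2) + 2 * d / (p : ℝ)) atTop
      (nhds (2 * d - 2)) := by
    have := (tendsto_const_div_atTop_nhds_zero_nat (2 * (d : ℝ))).const_add (2 * (d : ℝ) - 2)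
    simpa using this
  refine tendsto_of_tendsto_of_tendsto_of_le_of_le' tendsto_const_nhds h1 ?_ ?_
  · filter_upwards [eventually_ge_atTop 1] with p hp
    have hp' : (0 : ℝ) < p := by exact_mod_cast hp
    rw [le_div_iff₀ hp']
    exact (maxCap_bounds v p).1
  · filter_upwards [eventually_ge_atTop 1] with p hp
    have hp' : (0 : ℝ) < p := by exact_mod_cast hp
    rw [div_le_iff₀ hp']
    have := (maxCap_bounds v p).2
    have e : (2 * (d : ℝ) - 2 + 2 * d / p) * p = (2 * d - 2) * p + 2 * d := by
      field_simp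
    rw [e]
    exact this

end Pool.Agent.Perc.Zd
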