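import Pool.Agent.Helper68.Perc.ZLat

/-!
Distances and volumes of balls in the nearest neighbour graph on `ℤ^d`.
-/

namespace Pool.Agent.Perc.Zd

open Finset

variable {d : ℕ}

/-- the `ℓ¹` distance -/
def l1 (x y : Fin d → ℤ) : ℕ := ∑ i, (x i - y i).natAbs

lemma l1_self (x : Fin d → ℤ) : l1 x x = 0 := by simp [l1]

lemma l1_eq_zero {x y : Fin d → ℤ} (h : l1 x y = 0) : x = y := by
  funext i
  rw [l1, sum_eq_zero_iff] at h
  have := h i (mem_univ i)
  omega

/-- moving one coordinate by one changes the distance by at most one -/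
lemma l1_single (x y : Fin d → ℤ) (i : Fin d) : l1 (x + Pi.single i 1) y ≤ l1 x y + 1 := by
  unfold l1
  rw [← add_sum_erase _ _ (mem_univ i), ← add_sum_erase _ _ (mem_univ i)]
  have h1 : ∑ j ∈ univ.erase i, ((x + Pi.single i 1 : Fin d → ℤ) j - y j).natAbs =
      ∑ j ∈ univ.erase i, (x j - y j).natAbs := by
    apply sum_congr rfl
    intro j hj
    rw [Pi.add_apply, Pi.single_eq_of_ne (ne_of_mem_erase hj), add_zero]
  rw [h1, Pi.add_apply, Pi.single_eq_same]
  omega

lemma l1_single' (x y : Fin d → ℤ) (i : Fin d) : l1 x y ≤ l1 (x + Pi.single i 1) y + 1 := by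
  unfold l1
  rw [← add_sum_erase _ _ (mem_univ i), ← add_sum_erase _ _ (mem_univ i)]
  have h1 : ∑ j ∈ univ.erase i, ((x + Pi.single i 1 : Fin d → ℤ) j - y j).natAbs =
      ∑ j ∈ univ.erase i, (x j - y j).natAbs := by
    apply sum_congr rfl
    intro j hj
    rw [Pi.add_apply, Pi.single_eq_of_ne (ne_of_mem_erase hj), add_zero]
  rw [h1, Pi.add_apply, Pi.single_eq_same]
  omega

lemma l1_adj {x y : Fin d → ℤ} (h : (zd d).Adj x y) (z : Fin d → ℤ) : l1 x z ≤ l1 y z + 1 := by
  obtain ⟨i, h | h⟩ := h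
  · rw [h]; exact l1_single' _ _ _
  · rw [h]; exact l1_single _ _ _

lemma l1_le_length {x y : Fin d → ℤ} (w : (zd d).Walk x y) : l1 x y ≤ w.length := by
  induction w with
  | nil => rw [l1_self]; exact Nat.zero_le _
  | cons h w ih =>
    rw [SimpleGraph.Walk.length_cons]
    exact (l1_adj h _).trans (by omega)

/-- there is a walk of length equal to the `ℓ¹` distance -/
lemma exists_walk (n : ℕ) : ∀ x y : Fin d → ℤ, l1 x y = n →
    ∃ w : (zd d).Walk x y, w.length = n := by
  induction n with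
  | zero =>
    intro x y h
    obtain rfl := l1_eq_zero h
    exact ⟨SimpleGraph.Walk.nil, rfl⟩
  | succ n ih =>
    intro x y h
    have hex : ∃ i, x i ≠ y i := by
      by_contra hcon
      push Not at hcon
      have : x = y := funext hcon
      rw [this, l1_self] at h
      omega
    obtain ⟨i, hi⟩ := hex
    rcases lt_or_gt_of_ne hi with hlt | hgt
    · -- move up
      have h2 : l1 (x + Pi.single i 1) y = n := by
        have h3 : l1 (x + Pi.single i 1) y + 1 = l1 x y := by
          unfold l1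
          rw [← add_sum_erase _ _ (mem_univ i), ← add_sum_erase _ _ (mem_univ i)]
          have h1 : ∑ j ∈ univ.erase i, ((x + Pi.single i 1 : Fin d → ℤ) j - y j).natAbs =
              ∑ j ∈ univ.erase i, (x j - y j).natAbs := by
            apply sum_congr rfl
            intro j hj
            rw [Pi.add_apply, Pi.single_eq_of_ne (ne_of_mem_erase hj), add_zero]
          rw [h1, Pi.add_apply, Pi.single_eq_same]
          omega
        omega
      obtain ⟨w, hw⟩ := ih _ _ h2
      exact ⟨SimpleGraph.Walk.cons ⟨i, Or.inl rfl⟩ w, by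
        rw [SimpleGraph.Walk.length_cons, hw]⟩
    · -- move down
      have h2 : l1 (x - Pi.single i 1) y = n := by
        have h3 : l1 (x - Pi.single i 1) y + 1 = l1 x y := by
          unfold l1
          rw [← add_sum_erase _ _ (mem_univ i), ← add_sum_erase _ _ (mem_univ i)]
          have h1 : ∑ j ∈ univ.erase i, ((x - Pi.single i 1 : Fin d → ℤ) j - y j).natAbs =
              ∑ j ∈ univ.erase i, (x j - y j).natAbs := by
            apply sum_congr rfl
            intro j hj
            rw [Pi.sub_apply, Pi.single_eq_of_ne (ne_of_mem_erase hj), sub_zero]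
          rw [h1, Pi.sub_apply, Pi.single_eq_same]
          omega
        omega
      obtain ⟨w, hw⟩ := ih _ _ h2
      exact ⟨SimpleGraph.Walk.cons ⟨i, Or.inr (by simp)⟩ w, by
        rw [SimpleGraph.Walk.length_cons, hw]⟩

lemma connected : (zd d).Connected := by
  rw [SimpleGraph.connected_iff]
  refine ⟨fun x y => ?_, ⟨0⟩⟩
  obtain ⟨w, -⟩ := exists_walk _ x y rfl
  exact ⟨w⟩

lemma dist_eq (x y : Fin d → ℤ) : (zd d).dist x y = l1 x y := by
  apply le_antisymm
  · obtain ⟨w, hw⟩ := exists_walk _ x y rfl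
    rw [← hw]
    exact SimpleGraph.dist_le w
  · obtain ⟨w, hw⟩ := (connected (d := d)).exists_walk_length_eq_dist x y
    rw [← hw]
    exact l1_le_length w

lemma neighborSet_finite (x : Fin d → ℤ) : ((zd d).neighborSet x).Finite := by
  have : (zd d).neighborSet x ⊆ Set.range (fun i : Fin d => x + Pi.single i 1) ∪
      Set.range (fun i : Fin d => x - Pi.single i 1) := by
    rintro y ⟨i, h | h⟩
    · exact Or.inl ⟨i, h.symm⟩
    · exact Or.inr ⟨i, by rw [h]; simp⟩
  exact ((Set.finite_range _).union (Set.finite_range _)).subset this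

/-- translations -/
def tr (a : Fin d → ℤ) : zd d ≃g zd d where
  toEquiv := Equiv.addLeft a
  map_rel_iff' := by
    intro x y
    constructor
    · rintro ⟨i, h | h⟩
      · refine ⟨i, Or.inl ?_⟩
        simp only [Equiv.coe_addLeft] at h
        rw [add_assoc] at h
        exact add_left_cancel h
      · refine ⟨i, Or.inr ?_⟩
        simp only [Equiv.coe_addLeft] at h
        rw [add_assoc] at h
        exact add_left_cancel h
    · rintro ⟨i, h | h⟩
      · exact ⟨i, Or.inl (by simp only [Equiv.coe_addLeft]; rw [h, add_assoc])⟩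
      · exact ⟨i, Or.inr (by simp only [Equiv.coe_addLeft]; rw [h, add_assoc])⟩

lemma transitive (x y : Fin d → ℤ) : ∃ φ : zd d ≃g zd d, φ x = y :=
  ⟨tr (y - x), by simp [tr]⟩

lemma infinite [NeZero d] : Infinite (Fin d → ℤ) := inferInstance

/-- boxes -/
lemma card_box (o : Fin d → ℤ) (k : ℕ) :
    (Fintype.piFinset fun i => Icc (o i - k) (o i + k)).card = (2 * k + 1) ^ d := by
  rw [Fintype.card_piFinset]
  have : ∀ i : Fin d, (Icc (o i - k) (o i + k)).card = 2 * k + 1 := by
    intro i
    rw [Int.card_Icc]; omega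
  simp [this]

lemma ball_sub_box (o : Fin d → ℤ) (r : ℕ) :
    {w : Fin d → ℤ | (zd d).dist o w ≤ r} ⊆
      ((Fintype.piFinset fun i => Icc (o i - r) (o i + r) : Finset (Fin d → ℤ)) :
        Set (Fin d → ℤ)) := by
  intro w hw
  rw [Set.mem_setOf_eq, dist_eq] at hw
  rw [mem_coe, Fintype.mem_piFinset]
  intro i
  have : (o i - w i).natAbs ≤ l1 o w := single_le_sum (f := fun i => (o i - w i).natAbs)
    (fun _ _ => Nat.zero_le _) (mem_univ i)
  rw [mem_Icc]
  omega

lemma box_sub_ball (o : Fin d → ℤ) (r k : ℕ) (hk : d * k ≤ r) :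
    ((Fintype.piFinset fun i => Icc (o i - k) (o i + k) : Finset (Fin d → ℤ)) :
        Set (Fin d → ℤ)) ⊆ {w : Fin d → ℤ | (zd d).dist o w ≤ r} := by
  intro w hw
  rw [mem_coe, Fintype.mem_piFinset] at hw
  rw [Set.mem_setOf_eq, dist_eq]
  refine le_trans ?_ hk
  unfold l1
  calc ∑ i, (o i - w i).natAbs ≤ ∑ _i : Fin d, k := by
        refine sum_le_sum fun i _ => ?_
        have := hw i
        rw [mem_Icc] at this
        omega
    _ = d * k := by rw [sum_const, card_univ, Fintype.card_fin, smul_eq_mul]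

/-- volumes of balls -/
lemma ball_growth (hd : 0 < d) (o : Fin d → ℤ) (r : ℕ) (hr : 1 ≤ r) :
    (1 / (d : ℝ)) ^ d * (r : ℝ) ^ (d : ℝ) ≤ ({w : Fin d → ℤ | (zd d).dist o w ≤ r}.ncard : ℝ) ∧
      ({w : Fin d → ℤ | (zd d).dist o w ≤ r}.ncard : ℝ) ≤ 3 ^ d * (r : ℝ) ^ (d : ℝ) := by
  rw [Real.rpow_natCast]
  have hfin : {w : Fin d → ℤ | (zd d).dist o w ≤ r}.Finite :=
    (finite_toSet _).subset (ball_sub_box o r)
  constructor
  · have h1 := Set.ncard_le_ncard (box_sub_ball o r (r / d) (Nat.mul_div_le r d)) hfin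
    rw [Set.ncard_coe_finset, card_box] at h1
    have h2 : (((2 * (r / d) + 1) ^ d : ℕ) : ℝ) ≤
        ({w : Fin d → ℤ | (zd d).dist o w ≤ r}.ncard : ℝ) := by exact_mod_cast h1
    refine le_trans ?_ h2
    rw [← mul_pow]
    push_cast
    apply pow_le_pow_left₀ (by positivity)
    have hd' : (0 : ℝ) < d := by exact_mod_cast hd
    have h3 : r < d * (r / d + 1) := by
      have := Nat.lt_mul_div_succ r hd
      exact this
    have h4 : (r : ℝ) < d * (((r / d : ℕ) : ℝ) + 1) := by exact_mod_cast h3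
    rw [one_div, ← div_eq_inv_mul, div_le_iff₀ hd']
    have h5 : (0 : ℝ) ≤ ((r / d : ℕ) : ℝ) := by positivity
    nlinarith
  · have h1 := Set.ncard_le_ncard (ball_sub_box o r) (finite_toSet _)
    rw [Set.ncard_coe_finset, card_box] at h1
    have h2 : ({w : Fin d → ℤ | (zd d).dist o w ≤ r}.ncard : ℝ) ≤
        (((2 * r + 1) ^ d : ℕ) : ℝ) := by exact_mod_cast h1
    refine h2.trans ?_
    rw [← mul_pow]
    push_cast
    apply pow_le_pow_left₀ (by positivity)
    have : (1 : ℝ) ≤ r := by exact_mod_cast hr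
    linarith

end Pool.Agent.Perc.Zd
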