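import Mathlib
import Pool.Agent.Helper30.Perc.Game

/-!
The nearest neighbour graph on `ℤ^d`: edges, the projection bound for edge boundaries, and
Breaker's one-turn win in the `(p, q)`-percolation game for `q ≥ (2 d - 2) p + 2 d`.
-/

namespace Pool.Agent.Perc.Zd

open Finset

/-- The nearest neighbour graph on `ℤ^d`. -/
def zd (d : ℕ) : SimpleGraph (Fin d → ℤ) where
  Adj x y := ∃ i : Fin d, y = x + Pi.single i 1 ∨ x = y + Pi.single i 1
  symm := ⟨by
    rintro x y ⟨i, h | h⟩
    · exact ⟨i, Or.inr h⟩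
    · exact ⟨i, Or.inl h⟩⟩
  loopless := ⟨by
    rintro x ⟨i, h | h⟩
    · have := congrFun h i
      simp at this
    · have := congrFun h i
      simp at this⟩

variable {d : ℕ}

/-- The edge from `x` to `x + e_i`. -/
def ed (i : Fin d) (x : Fin d → ℤ) : Sym2 (Fin d → ℤ) := s(x, x + Pi.single i 1)

lemma ed_mem (i : Fin d) (x : Fin d → ℤ) : ed i x ∈ (zd d).edgeSet := by
  rw [ed, SimpleGraph.mem_edgeSet]
  exact ⟨i, Or.inl rfl⟩

lemma mem_edgeSet_iff {e : Sym2 (Fin d → ℤ)} : e ∈ (zd d).edgeSet ↔ ∃ i x, e = ed i x := by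
  induction e using Sym2.ind with
  | _ a b =>
    rw [SimpleGraph.mem_edgeSet]
    constructor
    · rintro ⟨i, h | h⟩
      · exact ⟨i, a, by rw [h, ed]⟩
      · exact ⟨i, b, by rw [h, ed, Sym2.eq_swap]⟩
    · rintro ⟨i, x, h⟩
      rw [← SimpleGraph.mem_edgeSet, h]
      exact ed_mem i x

lemma single_inj {i j : Fin d} (h : (Pi.single i 1 : Fin d → ℤ) = Pi.single j 1) : i = j := by
  by_contra hij
  have := congrFun h i
  rw [Pi.single_eq_same, Pi.single_eq_of_ne hij] at this
  exact one_ne_zero this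

lemma ed_inj {i j : Fin d} {x y : Fin d → ℤ} (h : ed i x = ed j y) : i = j ∧ x = y := by
  rw [ed, ed, Sym2.eq_iff] at h
  rcases h with ⟨h1, h2⟩ | ⟨h1, h2⟩
  · subst h1
    exact ⟨single_inj (add_left_cancel h2), rfl⟩
  · exfalso
    rw [h1, add_assoc] at h2
    have h3 : (Pi.single j 1 : Fin d → ℤ) + Pi.single i 1 = 0 := by
      have := h2
      rwa [add_eq_left] at this
    have h4 := congrFun h3 i
    simp only [Pi.add_apply, Pi.single_eq_same, Pi.zero_apply] at h4
    have h5 : (0 : ℤ) ≤ (Pi.single j 1 : Fin d → ℤ) i := by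
      by_cases hij : i = j
      · subst hij; simp
      · rw [Pi.single_eq_of_ne hij]
    omega

lemma infinite_edgeSet [NeZero d] : (zd d).edgeSet.Infinite := by
  have hinj : Function.Injective (fun k : ℤ => ed (0 : Fin d) (Pi.single 0 k)) := by
    intro a b h
    have := (ed_inj h).2
    have h2 := congrFun this 0
    simpa using h2
  exact Set.infinite_of_injective_forall_mem hinj (fun k => ed_mem _ _)

/-- **Projection bound**: if `F` contains all edges leaving the finite set `W` and `U ⊆ W` is a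
set on which every projection along a direction in `S` is injective, then
`|F| ≥ 2 |S| |U|`. -/
theorem card_cut_ge (S : Finset (Fin d)) (U W : Finset (Fin d → ℤ)) (hUW : U ⊆ W)
    (hinj : ∀ i ∈ S, ∀ x ∈ U, ∀ y ∈ U, (∀ j, j ≠ i → x j = y j) → x = y)
    (F : Finset (Sym2 (Fin d → ℤ)))
    (hF : ∀ a ∈ W, ∀ b, b ∉ W → (zd d).Adj a b → s(a, b) ∈ F) :
    2 * S.card * U.card ≤ F.card := by
  classical
  -- last point of `W` on the line through `u`, in the positive and in the negative direction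
  have htop : ∀ (i : Fin d) (u : Fin d → ℤ), u ∈ U → ∃ x ∈ W, (∀ j, j ≠ i → x j = u j) ∧
      x + Pi.single i 1 ∉ W := by
    intro i u hu
    obtain ⟨x, hx, hmax⟩ := Finset.exists_max_image (W.filter (fun x => ∀ j, j ≠ i → x j = u j))
      (fun x => x i) ⟨u, by simp [hUW hu]⟩
    rw [mem_filter] at hx
    refine ⟨x, hx.1, hx.2, fun h => ?_⟩
    have := hmax (x + Pi.single i 1) (by
      rw [mem_filter]
      refine ⟨h, fun j hj => ?_⟩
      rw [Pi.add_apply, Pi.single_eq_of_ne hj, add_zero, hx.2 j hj])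
    simp at this
  have hbot : ∀ (i : Fin d) (u : Fin d → ℤ), u ∈ U → ∃ x, x ∉ W ∧ (∀ j, j ≠ i → x j = u j) ∧
      x + Pi.single i 1 ∈ W := by
    intro i u hu
    obtain ⟨x, hx, hmin⟩ := Finset.exists_min_image (W.filter (fun x => ∀ j, j ≠ i → x j = u j))
      (fun x => x i) ⟨u, by simp [hUW hu]⟩
    rw [mem_filter] at hx
    refine ⟨x - Pi.single i 1, fun h => ?_, ?_, by simpa using hx.1⟩
    · have := hmin (x - Pi.single i 1) (by
        rw [mem_filter]
        refine ⟨h, fun j hj => ?_⟩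
        rw [Pi.sub_apply, Pi.single_eq_of_ne hj, sub_zero, hx.2 j hj])
      simp at this
    · intro j hj
      rw [Pi.sub_apply, Pi.single_eq_of_ne hj, sub_zero, hx.2 j hj]
  choose! top ht1 ht2 ht3 using htop
  choose! bot hb1 hb2 hb3 using hbot
  let f : (Fin d × (Fin d → ℤ)) × Bool → Sym2 (Fin d → ℤ) := fun a =>
    if a.2 then ed a.1.1 (top a.1.1 a.1.2) else ed a.1.1 (bot a.1.1 a.1.2)
  have hcard : ((S ×ˢ U) ×ˢ (Finset.univ : Finset Bool)).card = 2 * S.card * U.card := by
    rw [card_product, card_product, Finset.card_univ, Fintype.card_bool]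
    ring
  rw [← hcard]
  apply Finset.card_le_card_of_injOn f
  · rintro ⟨⟨i, u⟩, b⟩ h
    simp only [coe_product, Set.mem_prod, mem_coe, mem_univ, and_true] at h
    cases b with
    | true =>
      have := hF _ (ht1 i u h.2) _ (ht3 i u h.2) ⟨i, Or.inl rfl⟩
      simpa [f, ed] using this
    | false =>
      have := hF _ (hb3 i u h.2) _ (hb1 i u h.2) ⟨i, Or.inr rfl⟩
      rw [Sym2.eq_swap] at this
      simpa [f, ed] using this
  · rintro ⟨⟨i, u⟩, b⟩ h ⟨⟨i', u'⟩, b'⟩ h' heq
    simp only [coe_product, Set.mem_prod, mem_coe, mem_univ, and_true] at h h'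
    cases b <;> cases b'
    · simp only [f, Bool.false_eq_true, if_false] at heq
      obtain ⟨h1, h2⟩ := ed_inj heq
      subst h1
      have : u = u' := hinj i h.1 u h.2 u' h'.2 (fun j hj => by
        rw [← hb2 i u h.2 j hj, ← hb2 i u' h'.2 j hj, h2])
      rw [this]
    · exfalso
      simp only [f, Bool.false_eq_true, if_false, if_true] at heq
      obtain ⟨h1, h2⟩ := ed_inj heq
      subst h1
      exact hb1 i u h.2 (h2 ▸ ht1 i u' h'.2)
    · exfalso
      simp only [f, Bool.false_eq_true, if_false, if_true] at heq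
      obtain ⟨h1, h2⟩ := ed_inj heq
      subst h1
      exact hb1 i u' h'.2 (h2 ▸ ht1 i u h.2)
    · simp only [f, if_true] at heq
      obtain ⟨h1, h2⟩ := ed_inj heq
      subst h1
      have : u = u' := hinj i h.1 u h.2 u' h'.2 (fun j hj => by
        rw [← ht2 i u h.2 j hj, ← ht2 i u' h'.2 j hj, h2])
      rw [this]

/-- Maker's edges can be surrounded by few edges. -/
theorem exists_small_cut (v₀ : Fin d → ℤ) (X : Finset (Sym2 (Fin d → ℤ)))
    (hX : (X : Set (Sym2 (Fin d → ℤ))) ⊆ (zd d).edgeSet) :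
    ∃ (W : Finset (Fin d → ℤ)) (C : Finset (Sym2 (Fin d → ℤ))), v₀ ∈ W ∧
      C.card + 2 * X.card ≤ 2 * d * X.card + 2 * d ∧
      (C : Set (Sym2 (Fin d → ℤ))) ⊆ (zd d).edgeSet ∧
      Disjoint (C : Set (Sym2 (Fin d → ℤ))) (X : Set (Sym2 (Fin d → ℤ))) ∧
      ∀ a ∈ W, ∀ b, b ∉ W → (zd d).Adj a b → s(a, b) ∈ C := by
  classical
  -- edges of `X` inside `W`
  let ins : Finset (Fin d → ℤ) → Finset (Sym2 (Fin d → ℤ)) := fun W =>
    X.filter (fun e => ∀ a ∈ e, a ∈ W)
  have hins : ∀ W, (ins W).card ≤ X.card := fun W => card_filter_le _ _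
  let P : ℕ → Prop := fun k => ∃ W : Finset (Fin d → ℤ), v₀ ∈ W ∧ W.card ≤ 1 + (ins W).card ∧
    W.card = k
  have hPb : ∀ k, P k → k ≤ X.card + 1 := by
    rintro k ⟨W, _, h2, h3⟩
    have := hins W
    omega
  have hP1 : P 1 := ⟨{v₀}, by simp, by simp, by simp⟩
  obtain ⟨k, hk, hkmax⟩ : ∃ k, P k ∧ ∀ m, P m → m ≤ k := by
    have := Nat.findGreatest_spec (P := P) (n := X.card + 1) (m := 1) (by omega) hP1
    refine ⟨_, this, fun m hm => Nat.le_findGreatest (hPb m hm) hm⟩
  obtain ⟨W, hvW, hW1, hWk⟩ := hk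
  -- no edge of `X` leaves `W`
  have hno : ∀ a b, s(a, b) ∈ X → a ∈ W → b ∈ W := by
    intro a b hab ha
    by_contra hb
    have hP' : P (W.card + 1) := by
      refine ⟨insert b W, mem_insert_of_mem hvW, ?_, card_insert_of_notMem hb⟩
      rw [card_insert_of_notMem hb]
      have hlt : (ins W).card < (ins (insert b W)).card := by
        apply card_lt_card
        rw [ssubset_iff_of_subset]
        · refine ⟨s(a, b), ?_, ?_⟩
          · simp only [ins, mem_filter, Sym2.mem_iff]
            refine ⟨hab, ?_⟩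
            rintro c (rfl | rfl)
            · exact mem_insert_of_mem ha
            · exact mem_insert_self _ _
          · simp only [ins, mem_filter, Sym2.mem_iff, not_and]
            intro _ h
            exact hb (h b (Or.inr rfl))
        · intro e he
          simp only [ins, mem_filter] at he ⊢
          exact ⟨he.1, fun c hc => mem_insert_of_mem (he.2 c hc)⟩
      omega
    have := hkmax _ hP'
    omega
  -- edges touching `W`, as pairs
  let T1 : Finset ((Fin d → ℤ) × Fin d) := W ×ˢ univ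
  let T2 : Finset ((Fin d → ℤ) × Fin d) := (W ×ˢ univ).image (fun a => (a.1 - Pi.single a.2 1, a.2))
  have hT1 : T1.card = d * W.card := by
    simp only [T1, card_product, Finset.card_univ, Fintype.card_fin]; ring
  have hT2 : T2.card = d * W.card := by
    rw [← hT1]
    apply card_image_of_injective
    rintro ⟨x, i⟩ ⟨y, j⟩ h
    simp only [Prod.mk.injEq] at h
    obtain ⟨h1, rfl⟩ := h
    simpa using h1
  have hmT1 : ∀ x i, (x, i) ∈ T1 ↔ x ∈ W := by
    intro x i; simp [T1]
  have hmT2 : ∀ x i, (x, i) ∈ T2 ↔ x + Pi.single i 1 ∈ W := by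
    intro x i
    simp only [T2, mem_image, mem_product, mem_univ, and_true, Prod.mk.injEq, Prod.exists]
    constructor
    · rintro ⟨a, b, ha, h1, rfl⟩
      rw [← h1]; simpa using ha
    · intro h
      exact ⟨_, i, h, by simp, rfl⟩
  let C : Finset (Sym2 (Fin d → ℤ)) := ((T1 ∪ T2) \ (T1 ∩ T2)).image (fun a => ed a.2 a.1)
  refine ⟨W, C, hvW, ?_, ?_, ?_, ?_⟩
  · have h1 : C.card ≤ ((T1 ∪ T2) \ (T1 ∩ T2)).card := card_image_le
    have h2 : ((T1 ∪ T2) \ (T1 ∩ T2)).card + (T1 ∩ T2).card = (T1 ∪ T2).card := by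
      apply card_sdiff_add_card_eq_card
      exact inter_subset_left.trans subset_union_left
    have h3 := card_union_add_card_inter T1 T2
    have h4 : (ins W).card ≤ (T1 ∩ T2).card := by
      have : (ins W) ⊆ (T1 ∩ T2).image (fun a => ed a.2 a.1) := by
        intro e he
        simp only [ins, mem_filter] at he
        obtain ⟨i, x, rfl⟩ := mem_edgeSet_iff.1 (hX he.1)
        rw [mem_image]
        refine ⟨(x, i), ?_, rfl⟩
        rw [mem_inter, hmT1, hmT2]
        exact ⟨he.2 _ (by simp [ed]), he.2 _ (by simp [ed])⟩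
      exact (card_le_card this).trans card_image_le
    have h5 := hins W
    rw [hT1, hT2] at h3
    have h6 : C.card + 2 * (ins W).card ≤ d * W.card + d * W.card := by omega
    -- `C.card ≤ 2 d |W| - 2 (|W| - 1)`
    have hW' : W.card ≤ X.card + 1 := by omega
    obtain ⟨r, hr⟩ := Nat.exists_eq_add_of_le hW'
    have hd1 : r ≤ d * r ∨ d = 0 := by
      rcases Nat.eq_zero_or_pos d with h | h
      · right; exact h
      · left; exact Nat.le_mul_of_pos_left r h
    rcases hd1 with hd1 | hd0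
    · have e1 : d * (X.card + 1) = d * W.card + d * r := by rw [hr]; ring
      have e2 : 2 * d * X.card + 2 * d = 2 * (d * (X.card + 1)) := by ring
      rw [e2, e1]
      omega
    · have : X = ∅ := by
        rw [Finset.eq_empty_iff_forall_notMem]
        intro e he
        obtain ⟨i, x, -⟩ := mem_edgeSet_iff.1 (hX he)
        subst hd0
        exact i.elim0
      subst this
      subst hd0
      simp only [card_empty, mul_zero, add_zero, zero_mul] at *
      omega
  · intro e he
    simp only [C, coe_image, Set.mem_image] at he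
    obtain ⟨a, -, rfl⟩ := he
    exact ed_mem _ _
  · rw [Set.disjoint_left]
    intro e he heX
    simp only [C, coe_image, Set.mem_image, mem_coe, mem_sdiff, mem_union, mem_inter] at he
    obtain ⟨⟨x, i⟩, ⟨h1, h2⟩, rfl⟩ := he
    rw [hmT1, hmT2] at h1 h2
    simp only [mem_coe, ed] at heX
    rcases h1 with h1 | h1
    · exact h2 ⟨h1, hno _ _ heX h1⟩
    · rw [Sym2.eq_swap] at heX
      exact h2 ⟨hno _ _ heX h1, h1⟩
  · intro a ha b hb hab
    obtain ⟨i, h | h⟩ := hab
    · simp only [C, mem_image, mem_sdiff, mem_union, mem_inter]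
      refine ⟨(a, i), ?_, by rw [h, ed]⟩
      rw [hmT1, hmT2, ← h]
      exact ⟨Or.inl ha, fun hh => hb hh.2⟩
    · simp only [C, mem_image, mem_sdiff, mem_union, mem_inter]
      refine ⟨(b, i), ?_, by rw [h, ed, Sym2.eq_swap]⟩
      rw [hmT1, hmT2, ← h]
      exact ⟨Or.inr ha, fun hh => hb hh.1⟩

/-- **Breaker's side on `ℤ^d`**: he wins in one turn if `q ≥ (2 d - 2) p + 2 d`. -/
theorem breakerWins_zd [NeZero d] (v₀ : Fin d → ℤ) (p q : ℕ)
    (hq : 2 * d * p + 2 * d ≤ q + 2 * p) :
    Pool.Agent.Helper30.Perc.BreakerWins (zd d) v₀ p q := by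
  apply Pool.Agent.Helper30.Perc.breakerWins_of_cut (zd d) infinite_edgeSet
  intro X hXp hX
  obtain ⟨W, C, h1, h2, h3, h4, h5⟩ := exists_small_cut v₀ X hX
  refine ⟨W, C, h1, ?_, h3, h4, h5⟩
  rw [hXp] at h2
  omega

/-- **Maker is alive**: if a set `U` of vertices is joined to the root by Maker's edges, all
projections along directions in `S` are injective on `U`, and Breaker has fewer than `2 |S| |U|`
edges, then the component of the root is infinite. -/
theorem infinite_of_proj (S : Finset (Fin d)) (v₀ : Fin d → ℤ) (M B : Finset (Sym2 (Fin d → ℤ)))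
    (hM : (M : Set (Sym2 (Fin d → ℤ))) ⊆ (zd d).edgeSet)
    (hMB : Disjoint (M : Set (Sym2 (Fin d → ℤ))) (B : Set (Sym2 (Fin d → ℤ))))
    (U : Finset (Fin d → ℤ))
    (hconn : ∀ u ∈ U, (SimpleGraph.fromEdgeSet (M : Set (Sym2 (Fin d → ℤ)))).Reachable v₀ u)
    (hinj : ∀ i ∈ S, ∀ x ∈ U, ∀ y ∈ U, (∀ j, j ≠ i → x j = y j) → x = y)
    (hB : B.card < 2 * S.card * U.card) :
    {w : Fin d → ℤ | ((zd d).deleteEdges (B : Set (Sym2 (Fin d → ℤ)))).Reachable v₀ w}.Infinite := by
  classical
  intro hfin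
  have hle : SimpleGraph.fromEdgeSet (M : Set (Sym2 (Fin d → ℤ))) ≤
      (zd d).deleteEdges (B : Set (Sym2 (Fin d → ℤ))) := by
    intro a b hab
    rw [SimpleGraph.fromEdgeSet_adj] at hab
    rw [SimpleGraph.deleteEdges_adj]
    exact ⟨hM hab.1, Set.disjoint_left.1 hMB hab.1⟩
  have := card_cut_ge S U hfin.toFinset (fun u hu => by
      rw [Set.Finite.mem_toFinset, Set.mem_setOf_eq]
      exact (hconn u hu).mono hle) hinj B (by
      intro a ha b hb hab
      rw [Set.Finite.mem_toFinset, Set.mem_setOf_eq] at ha hb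
      by_contra hn
      apply hb
      apply ha.trans
      apply SimpleGraph.Adj.reachable
      rw [SimpleGraph.deleteEdges_adj]
      exact ⟨hab, hn⟩)
  omega

end Pool.Agent.Perc.Zd
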